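import Pool.Agent.H2FIN.Atoms

/-!
Linked pairs of `F_2`-spaces: independence of atoms and the element of rank one (helper2).
-/

set_option autoImplicit false
set_option linter.unusedSectionVars false
set_option linter.unusedVariables false

namespace Pool.Agent.H2FIN

open Module

variable {V W R : Type} [AddCommGroup V] [Module (ZMod 2) V] [AddCommGroup W]
    [Module (ZMod 2) W] [AddCommGroup R] [Module (ZMod 2) R]

namespace LP

variable [Finite V] [Finite W] [Finite R]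
variable {P : LP V W R} {b c K K' : ℕ}

theorem inW_self (G : Gap P b c K K') {ρ ρ' : R} (hρ : P.Atom K ρ) (hρ' : P.Atom K ρ')
    (hne : ρ + ρ' ∉ P.Rs K) : P.InW K ρ ρ' := by
  by_contra h
  rcases hρ'.2 ρ (rel_of_notInW h) with h1 | h1
  · exact hρ.1 h1
  · exact hne h1

/-- failure of the addition law at `τ`: the configuration -/
theorem configB (G : Gap P b c K K') {ρ ρ' τ : R} (hρ : P.Atom K ρ) (hρ' : P.Atom K ρ')
    (h : P.InW K ρ' τ) (hn : ¬ P.InW K ρ' (τ + ρ)) :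
    P.InW K ρ τ ∧ P.InW K ρ (τ + ρ + ρ') ∧ P.InW K ρ' (τ + ρ + ρ') := by
  have h1 : P.InW K ρ τ := by
    by_contra h1
    obtain ⟨y, hy, hy1, hy2⟩ := inW_one G hρ h1
    obtain ⟨z, hz, hz1, hz2⟩ := h
    have hz3 := not_inW h1 hz hz1
    apply hz2
    exact not_inW hn hz (by rw [fadd, hz1, hz3, add_zero])
  have h2 : P.InW K ρ' (τ + ρ + ρ') := inW_one G hρ' hn
  have h3 : ¬ P.InW K ρ' (τ + ρ') := not_both G hρ' h
  refine ⟨h1, ?_, h2⟩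
  by_contra h4
  obtain ⟨z, hz, hz1, hz2⟩ := h2
  have hz3 := not_inW h4 hz hz1
  apply hz2
  refine not_inW h3 hz ?_
  rw [fadd, fadd, hz3, add_zero] at hz1
  rw [fadd]
  exact hz1

theorem rd_two (G : Gap P b c K K') {ρ ρ' : R} (hρ : P.Atom K ρ) (hρ' : P.Atom K ρ')
    (hne : ρ + ρ' ∉ P.Rs K) : P.rd K {ρ + ρ'} = P.rd K ({ρ} ∪ {ρ'}) := by
  apply le_antisymm
  · intro x hx
    obtain ⟨h1, h2⟩ := mem_rd.1 hx
    have h3 := h2 _ rfl
    rw [fadd] at h3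
    have h4 := eq_of_add_zero h3
    have h5 := inW_disj G hρ (inW_self G hρ hρ' hne) h1 h1 h4
    refine mem_rd.2 ⟨h1, ?_⟩
    rintro σ (hσ | hσ)
    · rw [Set.mem_singleton_iff] at hσ
      rw [hσ, h5]
    · rw [Set.mem_singleton_iff] at hσ
      rw [hσ, ← h4, h5]
  · intro x hx
    obtain ⟨h1, h2⟩ := mem_rd.1 hx
    refine mem_rd.2 ⟨h1, fun σ hσ => ?_⟩
    rw [Set.mem_singleton_iff] at hσ
    rw [hσ, fadd, h2 ρ (Or.inl rfl), h2 ρ' (Or.inr rfl), add_zero]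

/-- the additive case -/
theorem small_of_additive (G : Gap P b c K K') {ρ ρ' s : R} (hρ : P.Atom K ρ)
    (hρ' : P.Atom K ρ')
    (h1 : P.InW K ρ (s + ρ')) (h1' : ¬ P.InW K ρ' (s + ρ'))
    (h2 : P.InW K ρ' (s + ρ)) (h2' : ¬ P.InW K ρ (s + ρ))
    (hs : s ∈ P.Rel K ({ρ} ∪ {ρ'})) : s ∈ P.Rs K := by
  apply Rs_of G
  have hE := P.fr_img K ρ ∅
  have hE' := P.fr_img K ρ' {ρ}
  rw [Set.empty_union, rd_empty] at hE
  have b1 := inW_big G hρ h1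
  have b2 := inW_big G hρ' h2
  have hle : fr ((P.rd K {ρ}).map (P.f ρ')) ≤ fr ((P.D K).map (P.f ρ')) :=
    fr_mono (Submodule.map_mono (P.rd_le K _))
  obtain ⟨A, hA⟩ : ∃ A, A = P.rd K {s + ρ'} := ⟨_, rfl⟩
  obtain ⟨B, hB⟩ : ∃ B, B = P.rd K {s + ρ} := ⟨_, rfl⟩
  obtain ⟨Z, hZ⟩ : ∃ Z, Z = P.rd K ({ρ} ∪ {ρ'}) := ⟨_, rfl⟩
  rw [← hA] at b1
  rw [← hB] at b2
  rw [← hZ] at hE'
  have kA : ∀ x ∈ A, P.f ρ' x = 0 ∧ P.f s x = 0 := by
    intro x hx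
    rw [hA] at hx
    obtain ⟨k1, k2⟩ := mem_rd.1 hx
    have k3 := not_inW h1' k1 (k2 _ rfl)
    have k4 := k2 _ rfl
    rw [fadd, k3, add_zero] at k4
    exact ⟨k3, k4⟩
  have kB : ∀ x ∈ B, P.f ρ x = 0 ∧ P.f s x = 0 := by
    intro x hx
    rw [hB] at hx
    obtain ⟨k1, k2⟩ := mem_rd.1 hx
    have k3 := not_inW h2' k1 (k2 _ rfl)
    have k4 := k2 _ rfl
    rw [fadd, k3, add_zero] at k4
    exact ⟨k3, k4⟩
  have kZ : ∀ x ∈ Z, P.f ρ x = 0 ∧ P.f ρ' x = 0 := by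
    intro x hx
    rw [hZ] at hx
    exact ⟨(mem_rd.1 hx).2 ρ (Or.inl rfl), (mem_rd.1 hx).2 ρ' (Or.inr rfl)⟩
  -- dimension of `A + B + Z`
  have m1 := fr_map (P.f ρ) (A ⊔ (B ⊔ Z))
  have m2 : fr (A.map (P.f ρ)) ≤ fr ((A ⊔ (B ⊔ Z)).map (P.f ρ)) :=
    fr_mono (Submodule.map_mono le_sup_left)
  have m3 : fr (B ⊔ Z) ≤ fr ((A ⊔ (B ⊔ Z)) ⊓ LinearMap.ker (P.f ρ)) := by
    apply fr_mono
    refine le_inf le_sup_right (sup_le ?_ ?_)
    · intro x hx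
      exact (kB x hx).1
    · intro x hx
      exact (kZ x hx).1
  have m4 := fr_map (P.f ρ') (B ⊔ Z)
  have m5 : fr (B.map (P.f ρ')) ≤ fr ((B ⊔ Z).map (P.f ρ')) :=
    fr_mono (Submodule.map_mono le_sup_left)
  have m6 : fr Z ≤ fr ((B ⊔ Z) ⊓ LinearMap.ker (P.f ρ')) := by
    apply fr_mono
    refine le_inf le_sup_right ?_
    intro x hx
    exact (kZ x hx).2
  -- everything but `Z` is in `rd s`
  have n1 : A ⊔ (B ⊔ Z) ≤ P.rd K {s} ⊔ Z := by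
    refine sup_le ?_ (sup_le ?_ le_sup_right)
    · refine le_trans ?_ le_sup_left
      intro x hx
      exact mem_rd.2 ⟨P.rd_le K _ (hA ▸ hx), fun σ hσ => by
        rw [Set.mem_singleton_iff] at hσ
        rw [hσ]
        exact (kA x hx).2⟩
    · refine le_trans ?_ le_sup_left
      intro x hx
      exact mem_rd.2 ⟨P.rd_le K _ (hB ▸ hx), fun σ hσ => by
        rw [Set.mem_singleton_iff] at hσ
        rw [hσ]
        exact (kB x hx).2⟩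
  have n2 := fr_mono n1
  have n3 := fr_sup_inf (P.rd K {s}) Z
  have n4 : P.rd K {s} ⊓ Z = P.rd K (({ρ} ∪ {ρ'}) ∪ {s}) := by
    rw [hZ, rd_union P K ({ρ} ∪ {ρ'}) {s}, inf_comm]
  rw [n4] at n3
  have n5 : fr (P.rd K ({ρ} ∪ {ρ'})) ≤ fr (P.rd K (({ρ} ∪ {ρ'}) ∪ {s})) + K := hs
  rw [← hZ] at n5
  have := G.h2
  omega

/-- the forms which are small relative to two atoms -/
theorem rel_two (G : Gap P b c K K') {ρ ρ' : R} (hρ : P.Atom K ρ) (hρ' : P.Atom K ρ')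
    (hne : ρ + ρ' ∉ P.Rs K) {τ : R} (hτ : τ ∈ P.Rel K ({ρ} ∪ {ρ'})) :
    τ ∈ P.Rs K ∨ τ + ρ ∈ P.Rs K ∨ τ + ρ' ∈ P.Rs K ∨ τ + ρ + ρ' ∈ P.Rs K := by
  have r1 : ρ ∈ P.Rel K ({ρ} ∪ {ρ'}) := rel_self (Or.inl rfl)
  have r2 : ρ' ∈ P.Rel K ({ρ} ∪ {ρ'}) := rel_self (Or.inr rfl)
  -- a representative in `W ρ'`
  obtain ⟨t, ht, htc, hr⟩ : ∃ t, P.InW K ρ' t ∧ t ∈ P.Rel K ({ρ} ∪ {ρ'}) ∧
      ((t ∈ P.Rs K ∨ t + ρ ∈ P.Rs K ∨ t + ρ' ∈ P.Rs K ∨ t + ρ + ρ' ∈ P.Rs K) →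
      (τ ∈ P.Rs K ∨ τ + ρ ∈ P.Rs K ∨ τ + ρ' ∈ P.Rs K ∨ τ + ρ + ρ' ∈ P.Rs K)) := by
    by_cases h : P.InW K ρ' τ
    · exact ⟨τ, h, hτ, id⟩
    · refine ⟨τ + ρ', inW_one G hρ' h, rel_add G hτ r2, ?_⟩
      rintro (h | h | h | h)
      · exact Or.inr (Or.inr (Or.inl h))
      · refine Or.inr (Or.inr (Or.inr ?_))
        rwa [add_right_comm] at h
      · rw [aa] at h
        exact Or.inl h
      · rw [add_right_comm τ ρ' ρ, aa] at h
        exact Or.inr (Or.inl h)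
  apply hr
  by_cases hc : P.InW K ρ' (t + ρ)
  · -- additive case
    obtain ⟨s, hs1, hs2, hs3, hs4, hs5⟩ : ∃ s, P.InW K ρ s ∧ P.InW K ρ' s ∧
        P.InW K ρ' (s + ρ) ∧ s ∈ P.Rel K ({ρ} ∪ {ρ'}) ∧ (s ∈ P.Rs K → t ∈ P.Rs K ∨
          t + ρ ∈ P.Rs K) := by
      by_cases h : P.InW K ρ t
      · exact ⟨t, h, ht, hc, htc, Or.inl⟩
      · refine ⟨t + ρ, inW_one G hρ h, hc, ?_, rel_add G htc r1, Or.inr⟩
        rw [aa]
        exact ht
    have h3 : P.InW K ρ (s + ρ') := by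
      by_contra h3
      have h4 := (configB G hρ' hρ hs1 h3).2.2
      -- `ρ' ` in `W` at `s + ρ' + ρ`
      have h5 := (configB G hρ' hρ hs1 h3).2.1
      rw [add_right_comm] at h5
      exact not_both G hρ' hs3 h5
    have h4 : ¬ P.InW K ρ' (s + ρ') := not_both G hρ' hs2
    have h5 : ¬ P.InW K ρ (s + ρ) := not_both G hρ hs1
    rcases hs5 (small_of_additive G hρ hρ' h3 h4 hs3 h5 hs4) with h | h
    · exact Or.inl h
    · exact Or.inr (Or.inl h)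
  · -- configuration B
    obtain ⟨h1, h2, h3⟩ := configB G hρ hρ' ht hc
    have h4 : ¬ P.InW K ρ (t + ρ) := not_both G hρ h1
    have k1 : ρ + ρ' ∈ P.Rel K {t + ρ} := rel_add G (rel_of_notInW h4) (rel_of_notInW hc)
    have k2 : t + ρ ∈ P.Rel K {ρ + ρ'} := by
      have h5 : fr (P.rd K ({ρ} ∪ {ρ'})) ≤ fr (P.rd K (({ρ} ∪ {ρ'}) ∪ {t + ρ})) + K :=
        rel_add G htc r1
      show fr (P.rd K {ρ + ρ'}) ≤ fr (P.rd K ({ρ + ρ'} ∪ {t + ρ})) + K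
      rw [rd_union, rd_two G hρ hρ' hne, ← rd_union]
      exact h5
    have k3 := atom_eq G (not_mem_of_kill G hρ h4) hne k2 k1
    have e : t + ρ + (ρ + ρ') = t + ρ' := by
      rw [← add_assoc, aa]
    rw [e] at k3
    exact Or.inr (Or.inr (Or.inl k3))

/-- values `l + m` with nonzero components are hit only by `ρ + ρ'` -/
theorem two_hit (G : Gap P b c K K') {ρ ρ' : R} (hρ : P.Atom K ρ) (hρ' : P.Atom K ρ')
    (hne : ρ + ρ' ∉ P.Rs K) {z w : W} (hz : z ∈ P.D K) (hw : w ∈ P.D K) {μ : R}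
    (h : P.f μ w = P.f (ρ + ρ') z) (h0 : P.f ρ z ≠ 0) (h0' : P.f ρ' z ≠ 0) :
    P.f (ρ + ρ') w = P.f (ρ + ρ') z := by
  obtain ⟨x, hxD, hx1, hx2⟩ := gen G ({ρ} ∪ {ρ'}) hz
  have e1 := hx1 ρ (Or.inl rfl)
  have e2 := hx1 ρ' (Or.inr rfl)
  have e3 : P.f (ρ + ρ') x = P.f (ρ + ρ') z := by rw [fadd, fadd, e1, e2]
  obtain ⟨κ, h1, h2⟩ := P.link (ρ + ρ') μ x w (e3.trans h.symm)
  have e4 : P.f (κ + (ρ + ρ')) x = 0 := by rw [fadd, h1, ZModModule.add_self]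
  rcases rel_two G hρ hρ' hne (hx2 _ e4) with h3 | h3 | h3 | h3
  · have := f_Rs h3 hw
    rw [fadd P κ, h2] at this
    exact (eq_of_add_zero this).symm.trans e3
  · exfalso
    have e : κ + (ρ + ρ') + ρ = κ + ρ' := by
      rw [← add_assoc κ ρ ρ', add_right_comm (κ + ρ) ρ' ρ, aa]
    rw [e] at h3
    have := f_Rs h3 hxD
    rw [fadd, h1, fadd, aa] at this
    exact h0 (e1.symm.trans this)
  · exfalso
    have e : κ + (ρ + ρ') + ρ' = κ + ρ := by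
      rw [← add_assoc κ ρ ρ', aa]
    rw [e] at h3
    have := f_Rs h3 hxD
    rw [fadd, h1, fadd, add_right_comm, ZModModule.add_self, zero_add] at this
    exact h0' (e2.symm.trans this)
  · exfalso
    have e : κ + (ρ + ρ') + ρ + ρ' = κ := by
      rw [← add_assoc κ ρ ρ', add_right_comm (κ + ρ) ρ' ρ, aa, aa]
    rw [e] at h3
    have := f_Rs h3 hxD
    rw [h1, fadd] at this
    have h5 := inW_disj G hρ (inW_self G hρ hρ' hne) hxD hxD (eq_of_add_zero this)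
    exact h0 (e1.symm.trans h5)

/-- the addition law -/
theorem add_law (G : Gap P b c K K') {ρ ρ' τ : R} (hρ : P.Atom K ρ) (hρ' : P.Atom K ρ')
    (hne : ρ + ρ' ∉ P.Rs K) (h : P.InW K ρ' τ) : P.InW K ρ' (τ + ρ) := by
  by_contra hn
  obtain ⟨h1, h2, h3⟩ := configB G hρ hρ' h hn
  -- a common value
  have b1 := inW_big G hρ h1
  have b2 := inW_big G hρ h2
  have hE := P.fr_img K ρ ∅
  rw [Set.empty_union, rd_empty] at hE
  have hlt := lt_of_notMem G hρ.1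
  have l1 : (P.rd K {τ}).map (P.f ρ) ≤ (P.D K).map (P.f ρ) :=
    Submodule.map_mono (P.rd_le K _)
  have l2 : (P.rd K {τ + ρ + ρ'}).map (P.f ρ) ≤ (P.D K).map (P.f ρ) :=
    Submodule.map_mono (P.rd_le K _)
  have l3 := fr_inf l1 l2
  have hpos : 0 < fr ((P.rd K {τ}).map (P.f ρ) ⊓ (P.rd K {τ + ρ + ρ'}).map (P.f ρ)) := by
    have := G.h2
    omega
  have hne0 : (P.rd K {τ}).map (P.f ρ) ⊓ (P.rd K {τ + ρ + ρ'}).map (P.f ρ) ≠ ⊥ := by
    intro e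
    rw [e] at hpos
    have : fr (⊥ : Submodule (ZMod 2) (V →ₗ[ZMod 2] ZMod 2)) = 0 := finrank_bot _ _
    omega
  obtain ⟨l, ⟨hl1, hl2⟩, hl0⟩ := Submodule.exists_mem_ne_zero_of_ne_bot hne0
  obtain ⟨y, hy, hyl⟩ := hl1
  obtain ⟨z, hz, hzl⟩ := hl2
  obtain ⟨hyD, hy1⟩ := mem_rd.1 hy
  obtain ⟨hzD, hz1⟩ := mem_rd.1 hz
  have hτy := hy1 τ rfl
  have hτz : P.f τ z = P.f (ρ + ρ') z := by
    have := hz1 _ rfl
    rw [add_assoc, fadd] at this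
    exact eq_of_add_zero this
  have hw : y + z ∈ P.D K := (P.D K).add_mem hyD hzD
  have hτw : P.f τ (y + z) = P.f (ρ + ρ') z := by
    rw [map_add, hτy, zero_add, hτz]
  have hρw : P.f ρ (y + z) = 0 := by
    rw [map_add, hyl, hzl, ZModModule.add_self]
  by_cases hm : P.f ρ' z = 0
  · have h5 : P.f τ (y + z) = P.f ρ z := by
      rw [hτw, fadd, hm, add_zero]
    have h6 := atom_hit G hρ hzD hw h5 (by rw [hzl]; exact hl0)
    rw [hρw, hzl] at h6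
    exact hl0 h6.symm
  · have h5 := two_hit G hρ hρ' hne hzD hw hτw (by rw [hzl]; exact hl0) hm
    rw [fadd, hρw, zero_add, fadd, map_add, hzl] at h5
    have h6 : P.f ρ' y = l := by
      have := congrArg (fun t => t + P.f ρ' z) h5
      simp only [aa] at this
      exact this
    have h7 := inW_disj G hρ (inW_self G hρ hρ' hne) hyD hyD (hyl.trans h6.symm)
    exact hl0 (hyl.symm.trans h7)

end LP

end Pool.Agent.H2FIN
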