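import Pool.Agent.H2FIN.Core

/-!
Linked pairs of `F_2`-spaces: atoms (helper2).
-/

set_option autoImplicit false
set_option linter.unusedSectionVars false
set_option linter.unusedVariables false

namespace Pool.Agent.H2FIN

open Module

variable {V W R : Type} [AddCommGroup V] [Module (ZMod 2) V] [AddCommGroup W]
    [Module (ZMod 2) W] [AddCommGroup R] [Module (ZMod 2) R]

theorem eq_of_add_zero {M : Type} [AddCommGroup M] [Module (ZMod 2) M] {x y : M}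
    (h : x + y = 0) : x = y := by
  have := congrArg (fun t => t + y) h
  simp only [zero_add] at this
  rwa [aa] at this

namespace LP

variable [Finite V] [Finite W] [Finite R]
variable {P : LP V W R} {b c K K' : ℕ}

theorem fadd (P : LP V W R) (σ τ : R) (x : W) : P.f (σ + τ) x = P.f σ x + P.f τ x := by
  rw [map_add, LinearMap.add_apply]

/-- two forms outside `Rs` each of which is small relative to the other agree modulo `Rs` -/
theorem atom_eq (G : Gap P b c K K') {σ τ : R} (hσ : σ ∉ P.Rs K) (hτ : τ ∉ P.Rs K)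
    (h1 : σ ∈ P.Rel K {τ}) (h2 : τ ∈ P.Rel K {σ}) : σ + τ ∈ P.Rs K := by
  by_contra hn
  have hΨ : P.Rel K {σ} = P.Rel K {τ} :=
    Set.Subset.antisymm (fun κ h => rel_trans G h1 h) (fun κ h => rel_trans G h2 h)
  have hs : σ ∈ P.Rel K {σ} := rel_self rfl
  have ht : τ ∈ P.Rel K {σ} := h2
  obtain ⟨Z, hZ⟩ : ∃ Z, Z = P.rd K (P.Rel K {σ}) := ⟨_, rfl⟩
  have hZσ : fr (P.rd K {σ}) ≤ fr Z + K := by
    have h := rel_all G {σ}
    rw [Set.union_eq_self_of_subset_left (Set.singleton_subset_iff.2 hs), ← hZ] at h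
    exact h
  have hZτ : fr (P.rd K {τ}) ≤ fr Z + K := by
    have h := rel_all G {τ}
    rw [← hΨ, Set.union_eq_self_of_subset_left (Set.singleton_subset_iff.2 ht), ← hZ] at h
    exact h
  have hA := P.fr_img K σ ∅
  have hB := P.fr_img K τ ∅
  rw [Set.empty_union, rd_empty] at hA hB
  obtain ⟨A, hA'⟩ : ∃ A, A = (P.D K).map (P.f σ) := ⟨_, rfl⟩
  obtain ⟨B, hB'⟩ : ∃ B, B = (P.D K).map (P.f τ) := ⟨_, rfl⟩
  rw [← hA'] at hA
  rw [← hB'] at hB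
  have hAZ : A ≤ P.an Z := by
    rw [hA']
    exact P.map_le_an σ _ _ (fun z hz => (mem_rd.1 (hZ ▸ hz)).2 σ hs)
  have hBZ : B ≤ P.an Z := by
    rw [hB']
    exact P.map_le_an τ _ _ (fun z hz => (mem_rd.1 (hZ ▸ hz)).2 τ ht)
  have hAB := fr_inf hAZ hBZ
  have hZV := P.fr_an Z
  have hV := V_codim G
  -- the covering
  obtain ⟨⟨μ, s⟩, hμ⟩ := exists_big (I := R × Bool) ((A ⊓ B : Submodule (ZMod 2) (V →ₗ[ZMod 2] ZMod 2)) :
    Set (V →ₗ[ZMod 2] ZMod 2))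
    (fun i => {l | i.1 ∈ P.Rel K {σ} ∧ i.1 ∉ P.Rs K ∧
      l ∈ (P.rd K {i.1}).map (P.f (bif i.2 then σ else τ))})
    (fun i => Set.toFinite _) (by
      rintro l ⟨hlA, hlB⟩
      rw [hA'] at hlA
      rw [hB'] at hlB
      obtain ⟨x0, hx0, hx0l⟩ := hlA
      obtain ⟨y0, hy0, hy0l⟩ := hlB
      obtain ⟨x, hx, hx1, hx2⟩ := gen G {σ} hx0
      obtain ⟨y, hy, hy1, hy2⟩ := gen G {τ} hy0
      have hxl : P.f σ x = l := (hx1 σ rfl).trans hx0l
      have hyl : P.f τ y = l := (hy1 τ rfl).trans hy0l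
      obtain ⟨κ, hk1, hk2⟩ := P.link σ τ x y (hxl.trans hyl.symm)
      have e1 : P.f (κ + σ) x = 0 := by
        rw [fadd, hk1, ZModModule.add_self]
      have e2 : P.f (κ + τ) y = 0 := by
        rw [fadd, hk2, hxl, hyl, ZModModule.add_self]
      have m1 := hx2 _ e1
      have m2 := hy2 _ e2
      rw [← hΨ] at m2
      by_cases c1 : κ + σ ∈ P.Rs K
      · by_cases c2 : κ + τ ∈ P.Rs K
        · exfalso
          apply hn
          have := Rs_add G c1 c2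
          rwa [add_add_add_comm, ZModModule.add_self, zero_add] at this
        · refine ⟨(κ + τ, false), m2, c2, y, mem_rd.2 ⟨hy, fun ρ hρ => ?_⟩, hyl⟩
          rw [Set.mem_singleton_iff] at hρ
          rw [hρ]
          exact e2
      · refine ⟨(κ + σ, true), m1, c1, x, mem_rd.2 ⟨hx, fun ρ hρ => ?_⟩, hxl⟩
        rw [Set.mem_singleton_iff] at hρ
        rw [hρ]
        exact e1)
  have hLc : Nat.card ((A ⊓ B : Submodule (ZMod 2) (V →ₗ[ZMod 2] ZMod 2)) :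
    Set (V →ₗ[ZMod 2] ZMod 2)) =
      2 ^ fr (A ⊓ B) := card_eq (A ⊓ B)
  rw [hLc] at hμ
  simp only at hμ
  obtain ⟨ρ, hρ⟩ : ∃ ρ, ρ = (bif s then σ else τ) := ⟨_, rfl⟩
  rw [← hρ] at hμ
  have hne : ({l | μ ∈ P.Rel K {σ} ∧ μ ∉ P.Rs K ∧ l ∈ (P.rd K {μ}).map (P.f ρ)}).Nonempty := by
    by_contra hn
    rw [Set.not_nonempty_iff_eq_empty] at hn
    rw [hn] at hμ
    simp at hμ
  obtain ⟨l0, m1, m2, -⟩ := hne
  have hρΨ : ρ ∈ P.Rel K {σ} := by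
    rw [hρ]
    cases s
    · exact ht
    · exact hs
  have hc1 : Nat.card {l | μ ∈ P.Rel K {σ} ∧ μ ∉ P.Rs K ∧ l ∈ (P.rd K {μ}).map (P.f ρ)} ≤
      2 ^ fr ((P.rd K {μ}).map (P.f ρ)) := by
    rw [← card_eq]
    apply Nat.card_mono (Set.toFinite _)
    rintro l ⟨-, -, h⟩
    exact h
  have hRB : Nat.card (R × Bool) ≤ 2 ^ (b + 1) := by
    rw [Nat.card_prod, pow_succ]
    have := G.hR
    simpa using this
  have h5 : 2 ^ fr (A ⊓ B) ≤ 2 ^ (b + 1) * 2 ^ fr ((P.rd K {μ}).map (P.f ρ)) :=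
    hμ.trans (Nat.mul_le_mul hRB hc1)
  rw [← pow_add] at h5
  have h6 := (Nat.pow_le_pow_iff_right (by norm_num : 1 < 2)).1 h5
  have h7 := P.fr_img K ρ {μ}
  have h8 : fr Z ≤ fr (P.rd K ({μ} ∪ {ρ})) := by
    rw [hZ]
    apply fr_mono
    apply P.rd_anti
    rintro κ (hκ | hκ)
    · rw [Set.mem_singleton_iff] at hκ
      rw [hκ]
      exact m1
    · rw [Set.mem_singleton_iff] at hκ
      rw [hκ]
      exact hρΨ
  have h9 := lt_of_notMem G m2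
  have := G.h2
  omega

/-- an atom -/
def Atom (P : LP V W R) (K : ℕ) (ρ : R) : Prop :=
  ρ ∉ P.Rs K ∧ ∀ τ ∈ P.Rel K {ρ}, τ ∈ P.Rs K ∨ τ + ρ ∈ P.Rs K

theorem exists_atom (G : Gap P b c K K') : ∀ (n : ℕ) (σ : R), Nat.card (P.Rel K {σ}) ≤ n →
    σ ∉ P.Rs K → ∃ ρ ∈ P.Rel K {σ}, P.Atom K ρ := by
  intro n
  induction n with
  | zero =>
    intro σ h hσ
    have h1 : 0 < Nat.card (P.Rel K {σ}) :=
      Nat.card_pos_iff.2 ⟨⟨⟨σ, rel_self rfl⟩⟩, inferInstance⟩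
    omega
  | succ n ih =>
    intro σ h hσ
    by_cases hat : P.Atom K σ
    · exact ⟨σ, rel_self rfl, hat⟩
    · unfold Atom at hat
      push Not at hat
      obtain ⟨τ, h1, h2, h3⟩ := hat hσ
      have h4 : σ ∉ P.Rel K {τ} := fun h4 => h3 (atom_eq G h2 hσ h1 h4)
      have h5 : P.Rel K {τ} ⊂ P.Rel K {σ} := by
        refine ⟨fun κ hκ => rel_trans G h1 hκ, fun hc => h4 (hc (rel_self rfl))⟩
      have h6 : Nat.card (P.Rel K {τ}) < Nat.card (P.Rel K {σ}) :=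
        Set.ncard_lt_ncard h5 (Set.toFinite _)
      obtain ⟨ρ, h7, h8⟩ := ih τ (by omega) h2
      exact ⟨ρ, rel_trans G h1 h7, h8⟩

theorem atom_hit (G : Gap P b c K K') {ρ : R} (hρ : P.Atom K ρ) {x0 y : W} (hx : x0 ∈ P.D K)
    (hy : y ∈ P.D K) {μ : R} (h : P.f μ y = P.f ρ x0) (h0 : P.f ρ x0 ≠ 0) :
    P.f ρ y = P.f ρ x0 := by
  obtain ⟨x, hxD, hx1, hx2⟩ := gen G {ρ} hx
  have e0 := hx1 ρ rfl
  obtain ⟨κ, h1, h2⟩ := P.link ρ μ x y (e0.trans h.symm)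
  have e1 : P.f (κ + ρ) x = 0 := by rw [fadd, h1, ZModModule.add_self]
  rcases hρ.2 _ (hx2 _ e1) with h3 | h3
  · have := f_Rs h3 hy
    rw [fadd, h2] at this
    exact ((eq_of_add_zero this).symm.trans e0)
  · rw [aa] at h3
    have := f_Rs h3 hxD
    rw [h1] at this
    exact absurd (e0.symm.trans this) h0

/-- some element killed by `σ` is not killed by `ρ` -/
def InW (P : LP V W R) (K : ℕ) (ρ σ : R) : Prop := ∃ y ∈ P.D K, P.f σ y = 0 ∧ P.f ρ y ≠ 0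

theorem not_inW {ρ σ : R} (h : ¬ P.InW K ρ σ) {y : W} (hy : y ∈ P.D K) (h0 : P.f σ y = 0) :
    P.f ρ y = 0 := by
  by_contra hc
  exact h ⟨y, hy, h0, hc⟩

theorem not_both (G : Gap P b c K K') {ρ σ : R} (hρ : P.Atom K ρ) (h : P.InW K ρ σ) :
    ¬ P.InW K ρ (σ + ρ) := by
  rintro ⟨z, hz, hz1, hz2⟩
  obtain ⟨y, hy, hy1, hy2⟩ := h
  rw [fadd] at hz1
  have e := eq_of_add_zero hz1
  have h1 := atom_hit G hρ hz ((P.D K).add_mem hy hz) (μ := σ) (by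
    rw [map_add, hy1, zero_add, e]) hz2
  rw [map_add] at h1
  exact hy2 (by simpa using h1)

theorem not_mem_of_kill (G : Gap P b c K K') {ρ σ : R} (hρ : P.Atom K ρ)
    (h : ¬ P.InW K ρ σ) : σ ∉ P.Rs K := by
  intro hσ
  apply hρ.1
  apply Rs_of_kill G
  intro x hx
  exact not_inW h hx (f_Rs hσ hx)

theorem rel_of_notInW {ρ σ : R} (h : ¬ P.InW K ρ σ) : ρ ∈ P.Rel K {σ} :=
  rel_of_kill fun x hx => not_inW h (mem_rd.1 hx).1 ((mem_rd.1 hx).2 σ rfl)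

theorem inW_rel (G : Gap P b c K K') {ρ σ : R} (hρ : P.Atom K ρ) (h : P.InW K ρ σ) :
    ρ ∉ P.Rel K {σ} := by
  intro hr
  have h1 := not_both G hρ h
  have h2 : σ + ρ ∉ P.Rs K := not_mem_of_kill G hρ h1
  have h3 : ρ ∈ P.Rel K {σ + ρ} := rel_of_notInW h1
  have h4 : σ ∈ P.Rel K {σ + ρ} := by
    have := rel_add G (rel_self (K := K) (P := P) (s := {σ + ρ}) rfl) h3
    rwa [aa] at this
  have h5 : σ + ρ ∈ P.Rel K {σ} := rel_add G (rel_self rfl) hr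
  have h6 : σ ∉ P.Rs K := by
    intro h6
    apply hρ.1
    apply Rs_of G
    have h7 : fr (P.rd K {σ}) ≤ fr (P.rd K ({σ} ∪ {ρ})) + K := hr
    have h8 : P.rd K {σ} = P.D K := by
      apply le_antisymm (P.rd_le K _)
      intro x hx
      exact mem_rd.2 ⟨hx, fun τ hτ => by
        rw [Set.mem_singleton_iff] at hτ
        rw [hτ]
        exact f_Rs h6 hx⟩
    rw [h8] at h7
    have h9 : fr (P.rd K ({σ} ∪ {ρ})) ≤ fr (P.rd K {ρ}) :=
      fr_mono (P.rd_anti K Set.subset_union_right)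
    have := G.h2
    omega
  have h7 := atom_eq G h6 h2 h4 h5
  rw [← add_assoc, ZModModule.add_self, zero_add] at h7
  exact hρ.1 h7

theorem inW_one (G : Gap P b c K K') {ρ σ : R} (hρ : P.Atom K ρ) (h : ¬ P.InW K ρ σ) :
    P.InW K ρ (σ + ρ) := by
  by_contra h1
  have h2 : ρ ∈ P.Rel K {σ} := rel_of_notInW h
  have h3 : ρ ∈ P.Rel K {σ + ρ} := rel_of_notInW h1
  have h4 : σ ∈ P.Rel K {σ + ρ} := by
    have := rel_add G (rel_self (K := K) (P := P) (s := {σ + ρ}) rfl) h3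
    rwa [aa] at this
  have h5 : σ + ρ ∈ P.Rel K {σ} := rel_add G (rel_self rfl) h2
  have h7 := atom_eq G (not_mem_of_kill G hρ h) (not_mem_of_kill G hρ h1) h4 h5
  rw [← add_assoc, ZModModule.add_self, zero_add] at h7
  exact hρ.1 h7

theorem inW_disj (G : Gap P b c K K') {ρ σ : R} (hρ : P.Atom K ρ) (h : P.InW K ρ σ)
    {x y : W} (hx : x ∈ P.D K) (hy : y ∈ P.D K) (e : P.f ρ x = P.f σ y) : P.f ρ x = 0 := by
  by_contra h0
  have h1 := atom_hit G hρ hx hy e.symm h0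
  refine not_both G hρ h ⟨y, hy, ?_, ?_⟩
  · rw [fadd, h1, e, ZModModule.add_self]
  · rw [h1]
    exact h0

theorem an_sup (P : LP V W R) (A B : Submodule (ZMod 2) W) :
    P.an (A ⊔ B) = P.an A ⊓ P.an B := by
  unfold an
  rw [Submodule.map_sup, Submodule.dualAnnihilator_sup_eq]

theorem inW_big (G : Gap P b c K K') {ρ σ : R} (hρ : P.Atom K ρ) (h : P.InW K ρ σ) :
    fr ((P.D K).map (P.f ρ)) ≤ fr ((P.rd K {σ}).map (P.f ρ)) + 2 * (K + c) := by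
  have hA := P.fr_img K ρ ∅
  have hB := P.fr_img K σ ∅
  rw [Set.empty_union, rd_empty] at hA hB
  obtain ⟨A, hA'⟩ : ∃ A, A = (P.D K).map (P.f ρ) := ⟨_, rfl⟩
  obtain ⟨B, hB'⟩ : ∃ B, B = (P.D K).map (P.f σ) := ⟨_, rfl⟩
  rw [← hA'] at hA ⊢
  rw [← hB'] at hB
  have hAX : A ≤ P.an (P.rd K {ρ}) := by
    rw [hA']
    exact P.map_le_an ρ _ _ (fun z hz => (mem_rd.1 hz).2 ρ rfl)
  have hBY : B ≤ P.an (P.rd K {σ}) := by
    rw [hB']
    exact P.map_le_an σ _ _ (fun z hz => (mem_rd.1 hz).2 σ rfl)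
  have hdis : A ⊓ B = ⊥ := by
    rw [eq_bot_iff]
    rintro l ⟨h1, h2⟩
    rw [hA'] at h1
    rw [hB'] at h2
    obtain ⟨x, hx, hxl⟩ := h1
    obtain ⟨y, hy, hyl⟩ := h2
    have := inW_disj G hρ h hx hy (hxl.trans hyl.symm)
    rw [Submodule.mem_bot, ← hxl]
    exact this
  have hX := P.fr_an (P.rd K {ρ})
  have hY := P.fr_an (P.rd K {σ})
  have hV := V_codim G
  have hS := P.fr_an (P.rd K {ρ} ⊔ P.rd K {σ})
  rw [an_sup] at hS
  obtain ⟨X, hX'⟩ : ∃ X, X = P.an (P.rd K {ρ}) := ⟨_, rfl⟩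
  obtain ⟨Y, hY'⟩ : ∃ Y, Y = P.an (P.rd K {σ}) := ⟨_, rfl⟩
  rw [← hX'] at hX hS hAX
  rw [← hY'] at hY hS hBY
  have k1 := fr_inf (X := X) hAX (inf_le_left (a := X) (b := Y))
  have k2 : A ⊓ (X ⊓ Y) ≤ A ⊓ Y := inf_le_inf_left _ inf_le_right
  have k3 := fr_mono k2
  have k4 := fr_inf (X := Y) (inf_le_right (a := A) (b := Y)) hBY
  have k5 : A ⊓ Y ⊓ B ≤ A ⊓ B := inf_le_inf_right _ inf_le_left
  have k6 := fr_mono k5
  have k7 : fr (A ⊓ B) = 0 := by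
    rw [hdis]
    exact finrank_bot _ _
  have hD := P.fr_an (P.D K)
  have h1 := P.fr_img K ρ {σ}
  have h2 := fr_sup_inf (P.rd K {ρ}) (P.rd K {σ})
  have h3 : P.rd K {ρ} ⊓ P.rd K {σ} = P.rd K ({σ} ∪ {ρ}) := by
    rw [rd_union, inf_comm]
  rw [h3] at h2
  omega

end LP

end Pool.Agent.H2FIN
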