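import Pool.Agent.H2FIN.Lin

/-!
Linked pairs of `F_2`-spaces: generic elements, atoms (helper2).
-/

set_option autoImplicit false
set_option linter.unusedSectionVars false
set_option linter.unusedVariables false

namespace Pool.Agent.H2FIN

open Module

/-- A linked pair: a space `R` of linear maps from `W` to the dual of `V ⊇ W`, symmetric on `W`,
such that `ρ x = σ y` implies `τ x = τ y = ρ x` for some `τ`. -/
structure LP (V W R : Type) [AddCommGroup V] [Module (ZMod 2) V] [AddCommGroup W]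
    [Module (ZMod 2) W] [AddCommGroup R] [Module (ZMod 2) R] where
  ι : W →ₗ[ZMod 2] V
  inj : Function.Injective ι
  f : R →ₗ[ZMod 2] W →ₗ[ZMod 2] (V →ₗ[ZMod 2] ZMod 2)
  sym : ∀ ρ x y, f ρ x (ι y) = f ρ y (ι x)
  link : ∀ ρ σ x y, f ρ x = f σ y → ∃ τ, f τ x = f ρ x ∧ f τ y = f ρ x

variable {V W R : Type} [AddCommGroup V] [Module (ZMod 2) V] [AddCommGroup W]
    [Module (ZMod 2) W] [AddCommGroup R] [Module (ZMod 2) R]

theorem aa {M : Type} [AddCommGroup M] [Module (ZMod 2) M] (x y : M) : x + y + y = x := by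
  rw [add_assoc, ZModModule.add_self, add_zero]

namespace LP

/-- the common radical of a set of forms -/
def rad (P : LP V W R) (s : Set R) : Submodule (ZMod 2) W where
  carrier := {x | ∀ σ ∈ s, P.f σ x = 0}
  add_mem' := fun {a b} ha hb σ hσ => by
    rw [map_add, ha σ hσ, hb σ hσ, add_zero]
  zero_mem' := fun σ _ => map_zero _
  smul_mem' := fun c x hx σ hσ => by
    rw [map_smul, hx σ hσ, smul_zero]

theorem mem_rad {P : LP V W R} {s : Set R} {x : W} :
    x ∈ P.rad s ↔ ∀ σ ∈ s, P.f σ x = 0 := Iff.rfl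

theorem rad_anti (P : LP V W R) {s t : Set R} (h : s ⊆ t) : P.rad t ≤ P.rad s :=
  fun _ hx σ hσ => hx σ (h hσ)

theorem rad_empty (P : LP V W R) : P.rad ∅ = ⊤ := by
  rw [eq_top_iff]
  intro x _ σ hσ
  exact absurd hσ (Set.notMem_empty σ)

/-- parameters such that no codimension lies strictly between `K` and `K'` -/
structure Gap (P : LP V W R) (b c K K' : ℕ) : Prop where
  hV : finrank (ZMod 2) V ≤ finrank (ZMod 2) W + c
  hR : Nat.card R ≤ 2 ^ b
  hb : b ≤ K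
  h1 : Nat.card R * K ≤ K'
  h2 : 5 * K + 5 * c + b + 1 ≤ K'
  gap : ∀ s t : Set R, s ⊆ t → fr (P.rad s) ≤ fr (P.rad t) + K' →
    fr (P.rad s) ≤ fr (P.rad t) + K

/-- the forms of small rank -/
def Rs (P : LP V W R) (K : ℕ) : Set R := {σ | finrank (ZMod 2) W ≤ fr (P.rad {σ}) + K}

/-- the radical of the forms in `s` and of the forms of small rank -/
def rd (P : LP V W R) (K : ℕ) (s : Set R) : Submodule (ZMod 2) W := P.rad (P.Rs K ∪ s)

/-- the radical of the forms of small rank -/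
def D (P : LP V W R) (K : ℕ) : Submodule (ZMod 2) W := P.rad (P.Rs K)

theorem mem_rd {P : LP V W R} {K : ℕ} {s : Set R} {x : W} :
    x ∈ P.rd K s ↔ x ∈ P.D K ∧ ∀ σ ∈ s, P.f σ x = 0 := by
  constructor
  · intro h
    exact ⟨fun σ hσ => h σ (Or.inl hσ), fun σ hσ => h σ (Or.inr hσ)⟩
  · rintro ⟨h1, h2⟩ σ (hσ | hσ)
    · exact h1 σ hσ
    · exact h2 σ hσ

theorem rd_le (P : LP V W R) (K : ℕ) (s : Set R) : P.rd K s ≤ P.D K :=
  fun _ hx => (mem_rd.1 hx).1

theorem rd_anti (P : LP V W R) (K : ℕ) {s t : Set R} (h : s ⊆ t) : P.rd K t ≤ P.rd K s :=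
  P.rad_anti (Set.union_subset_union_right _ h)

theorem rd_empty (P : LP V W R) (K : ℕ) : P.rd K ∅ = P.D K := by
  unfold rd D
  rw [Set.union_empty]

theorem rd_union (P : LP V W R) (K : ℕ) (s t : Set R) :
    P.rd K (s ∪ t) = P.rd K s ⊓ P.rd K t := by
  ext x
  simp only [Submodule.mem_inf, mem_rd, Set.mem_union]
  constructor
  · rintro ⟨h1, h2⟩
    exact ⟨⟨h1, fun σ h => h2 σ (Or.inl h)⟩, h1, fun σ h => h2 σ (Or.inr h)⟩
  · rintro ⟨⟨h1, h2⟩, _, h3⟩
    exact ⟨h1, fun σ h => h.elim (h2 σ) (h3 σ)⟩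

/-- forms which kill almost all of `rd s` -/
def Rel (P : LP V W R) (K : ℕ) (s : Set R) : Set R :=
  {τ | fr (P.rd K s) ≤ fr (P.rd K (s ∪ {τ})) + K}

variable [Finite V] [Finite W] [Finite R]

theorem inf_codim (P : LP V W R) (K : ℕ) (A : Submodule (ZMod 2) W) (t : Set R)
    (h : ∀ τ ∈ t, fr A ≤ fr (A ⊓ P.rad {τ}) + K) :
    fr A ≤ fr (A ⊓ P.rad t) + Nat.card R * K := by
  classical
  have := Fintype.ofFinite R
  have key : ∀ u : Finset R, (∀ τ ∈ u, τ ∈ t) → fr A ≤ fr (A ⊓ P.rad (u : Set R)) + u.card * K := by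
    intro u
    induction u using Finset.induction_on with
    | empty =>
      intro _
      rw [Finset.coe_empty, rad_empty, inf_top_eq]
      omega
    | insert a u ha ih =>
      intro hu
      have h1 := ih (fun τ hτ => hu τ (Finset.mem_insert_of_mem hτ))
      have h2 := h a (hu a (Finset.mem_insert_self a u))
      have h3 : A ⊓ P.rad ((insert a u : Finset R) : Set R) =
          (A ⊓ P.rad (u : Set R)) ⊓ (A ⊓ P.rad {a}) := by
        ext x
        simp only [Submodule.mem_inf, mem_rad, Finset.coe_insert, Set.mem_insert_iff,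
          Set.mem_singleton_iff]
        constructor
        · rintro ⟨k1, k2⟩
          exact ⟨⟨k1, fun σ hσ => k2 σ (Or.inr hσ)⟩, k1, fun σ hσ => k2 σ (Or.inl hσ)⟩
        · rintro ⟨⟨k1, k2⟩, _, k3⟩
          exact ⟨k1, fun σ hσ => hσ.elim (k3 σ) (k2 σ)⟩
      have h4 := fr_inf (X := A) (A := A ⊓ P.rad (u : Set R)) (B := A ⊓ P.rad {a})
        inf_le_left inf_le_left
      rw [h3, Finset.card_insert_of_notMem ha, Nat.succ_mul]
      omega
  have h1 := key t.toFinite.toFinset (fun τ hτ => (Set.Finite.mem_toFinset _).1 hτ)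
  rw [Set.Finite.coe_toFinset] at h1
  have h2 : t.toFinite.toFinset.card ≤ Nat.card R := by
    rw [Nat.card_eq_fintype_card]
    exact Finset.card_le_univ _
  have h3 := Nat.mul_le_mul_right K h2
  omega

section gap
variable {P : LP V W R} {b c K K' : ℕ}

theorem gapD (G : Gap P b c K K') {s t : Set R} (h : s ⊆ t)
    (h1 : fr (P.rd K s) ≤ fr (P.rd K t) + K') : fr (P.rd K s) ≤ fr (P.rd K t) + K :=
  G.gap _ _ (Set.union_subset_union_right _ h) h1

theorem D_codim (G : Gap P b c K K') : finrank (ZMod 2) W ≤ fr (P.D K) + K := by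
  have h1 := P.inf_codim K ⊤ (P.Rs K) (fun τ hτ => by
    rw [top_inf_eq, fr_top]
    exact hτ)
  rw [top_inf_eq] at h1
  have h2 := G.gap ∅ (P.Rs K) (Set.empty_subset _) (by
    rw [rad_empty]
    have := G.h1
    omega)
  rw [rad_empty, fr_top] at h2
  exact h2

theorem V_codim (G : Gap P b c K K') : finrank (ZMod 2) V ≤ fr (P.D K) + (K + c) := by
  have h1 := D_codim G
  have h2 := G.hV
  omega

theorem Rs_of (G : Gap P b c K K') {σ : R} (h : fr (P.D K) ≤ fr (P.rd K {σ}) + K') :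
    σ ∈ P.Rs K := by
  have h0 := gapD G (Set.empty_subset {σ}) (by rw [rd_empty]; exact h)
  rw [rd_empty] at h0
  have h1 := D_codim G
  have h2 : fr (P.rd K {σ}) ≤ fr (P.rad {σ}) := fr_mono (P.rad_anti Set.subset_union_right)
  have h3 := G.gap ∅ {σ} (Set.empty_subset _) (by
    rw [rad_empty, fr_top]
    have := G.h2
    omega)
  rw [rad_empty, fr_top] at h3
  exact h3

theorem lt_of_notMem (G : Gap P b c K K') {σ : R} (h : σ ∉ P.Rs K) :
    fr (P.rd K {σ}) + K' < fr (P.D K) := by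
  by_contra hc
  exact h (Rs_of G (by omega))

theorem f_Rs {σ : R} (h : σ ∈ P.Rs K) {x : W} (hx : x ∈ P.D K) : P.f σ x = 0 := hx σ h

theorem Rs_of_kill (G : Gap P b c K K') {σ : R} (h : ∀ x ∈ P.D K, P.f σ x = 0) :
    σ ∈ P.Rs K := by
  apply Rs_of G
  have : P.rd K {σ} = P.D K := by
    apply le_antisymm (P.rd_le K _)
    intro x hx
    exact mem_rd.2 ⟨hx, fun τ hτ => by
      rw [Set.mem_singleton_iff] at hτ
      rw [hτ]
      exact h x hx⟩
  rw [this]
  omega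

theorem Rs_add (G : Gap P b c K K') {σ τ : R} (hσ : σ ∈ P.Rs K) (hτ : τ ∈ P.Rs K) :
    σ + τ ∈ P.Rs K := by
  apply Rs_of_kill G
  intro x hx
  rw [map_add, LinearMap.add_apply, f_Rs hσ hx, f_Rs hτ hx, add_zero]

theorem rel_add (G : Gap P b c K K') {s : Set R} {τ τ' : R} (h : τ ∈ P.Rel K s)
    (h' : τ' ∈ P.Rel K s) : τ + τ' ∈ P.Rel K s := by
  have h1 := fr_inf (P.rd_anti K (Set.subset_union_left (s := s) (t := {τ})))
    (P.rd_anti K (Set.subset_union_left (s := s) (t := {τ'})))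
  have h2 : fr (P.rd K (s ∪ {τ}) ⊓ P.rd K (s ∪ {τ'})) ≤ fr (P.rd K (s ∪ {τ + τ'})) := by
    apply fr_mono
    rintro x ⟨hx, hx'⟩
    obtain ⟨k1, k2⟩ := mem_rd.1 hx
    obtain ⟨_, k3⟩ := mem_rd.1 hx'
    refine mem_rd.2 ⟨k1, ?_⟩
    rintro σ (hσ | hσ)
    · exact k2 σ (Or.inl hσ)
    · rw [Set.mem_singleton_iff] at hσ
      rw [hσ, map_add, LinearMap.add_apply, k2 τ (Or.inr rfl), k3 τ' (Or.inr rfl), add_zero]
  apply gapD G Set.subset_union_left
  have h3 : fr (P.rd K s) ≤ fr (P.rd K (s ∪ {τ})) + K := h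
  have h4 : fr (P.rd K s) ≤ fr (P.rd K (s ∪ {τ'})) + K := h'
  have := G.h2
  omega

theorem rel_self {s : Set R} {τ : R} (h : τ ∈ s) : τ ∈ P.Rel K s := by
  have : s ∪ {τ} = s := Set.union_eq_self_of_subset_right (Set.singleton_subset_iff.2 h)
  show fr (P.rd K s) ≤ fr (P.rd K (s ∪ {τ})) + K
  rw [this]
  omega

/-- a form killing `rd s` is in `Rel s` -/
theorem rel_of_kill {s : Set R} {τ : R} (h : ∀ x ∈ P.rd K s, P.f τ x = 0) : τ ∈ P.Rel K s := by
  have : P.rd K (s ∪ {τ}) = P.rd K s := by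
    apply le_antisymm (P.rd_anti K Set.subset_union_left)
    intro x hx
    refine mem_rd.2 ⟨(mem_rd.1 hx).1, ?_⟩
    rintro σ (hσ | hσ)
    · exact (mem_rd.1 hx).2 σ hσ
    · rw [Set.mem_singleton_iff] at hσ
      rw [hσ]
      exact h x hx
  show fr (P.rd K s) ≤ fr (P.rd K (s ∪ {τ})) + K
  rw [this]
  omega

theorem rel_of_Rs {s : Set R} {τ : R} (h : τ ∈ P.Rs K) : τ ∈ P.Rel K s :=
  rel_of_kill fun x hx => f_Rs h (P.rd_le K s hx)

theorem rel_trans (G : Gap P b c K K') {σ σ' τ : R} (h : σ' ∈ P.Rel K {σ})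
    (h' : τ ∈ P.Rel K {σ'}) : τ ∈ P.Rel K {σ} := by
  have h1 : fr (P.rd K {σ}) ≤ fr (P.rd K ({σ} ∪ {σ'})) + K := h
  have h2 : fr (P.rd K {σ'}) ≤ fr (P.rd K ({σ'} ∪ {τ})) + K := h'
  have h3 := fr_inf (P.rd_anti K (Set.subset_union_left (s := {σ'}) (t := {τ})))
    (P.rd_anti K (Set.subset_union_right (s := {σ}) (t := {σ'})))
  have h4 : fr (P.rd K ({σ'} ∪ {τ}) ⊓ P.rd K ({σ} ∪ {σ'})) ≤ fr (P.rd K ({σ} ∪ {τ})) := by
    apply fr_mono
    rintro x ⟨hx, hx'⟩
    obtain ⟨k1, k2⟩ := mem_rd.1 hx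
    obtain ⟨_, k3⟩ := mem_rd.1 hx'
    refine mem_rd.2 ⟨k1, ?_⟩
    rintro ρ (hρ | hρ)
    · exact k3 ρ (Or.inl hρ)
    · exact k2 ρ (Or.inr hρ)
  apply gapD G Set.subset_union_left
  have := G.h2
  omega

theorem rel_all (G : Gap P b c K K') (s : Set R) :
    fr (P.rd K s) ≤ fr (P.rd K (s ∪ P.Rel K s)) + K := by
  apply gapD G Set.subset_union_left
  have h0 : ∀ t : Set R, P.rd K s ⊓ P.rad t = P.rd K (s ∪ t) := by
    intro t
    ext x
    simp only [Submodule.mem_inf, mem_rd, mem_rad, Set.mem_union]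
    constructor
    · rintro ⟨⟨h1, h2⟩, h3⟩
      exact ⟨h1, fun σ h => h.elim (h2 σ) (h3 σ)⟩
    · rintro ⟨h1, h2⟩
      exact ⟨⟨h1, fun σ h => h2 σ (Or.inl h)⟩, fun σ h => h2 σ (Or.inr h)⟩
  have h1 := P.inf_codim K (P.rd K s) (P.Rel K s) (fun τ hτ => by
    rw [h0]
    exact hτ)
  rw [h0] at h1
  have := G.h1
  omega

theorem card_translate {M : Type} [AddCommGroup M] [Module (ZMod 2) M]
    (A : Submodule (ZMod 2) M) (a : M) : Nat.card {x : M | x + a ∈ A} = Nat.card A := by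
  refine Nat.card_congr ⟨fun x => ⟨x.1 + a, x.2⟩, fun y => ⟨y.1 + a, ?_⟩, fun x => ?_, fun y => ?_⟩
  · show y.1 + a + a ∈ A
    rw [aa]
    exact y.2
  · exact Subtype.ext (aa _ _)
  · exact Subtype.ext (aa _ _)

/-- generic elements -/
theorem gen (G : Gap P b c K K') (s : Set R) {a : W} (ha : a ∈ P.D K) :
    ∃ x ∈ P.D K, (∀ σ ∈ s, P.f σ x = P.f σ a) ∧ ∀ τ, P.f τ x = 0 → τ ∈ P.Rel K s := by
  by_contra hc
  push Not at hc
  obtain ⟨τ, hτ⟩ := exists_big (I := R) {x : W | x + a ∈ P.rd K s}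
    (fun τ => {x : W | x + a ∈ P.rd K s ∧ P.f τ x = 0 ∧ τ ∉ P.Rel K s})
    (fun τ => Set.toFinite _) (by
      intro x hx
      have hxa : x + a ∈ P.rd K s := hx
      obtain ⟨h1, h2⟩ := mem_rd.1 hxa
      have hxD : x ∈ P.D K := by
        have := (P.D K).add_mem h1 ha
        rwa [aa] at this
      obtain ⟨τ, h3, h4⟩ := hc x hxD (fun σ hσ => by
        have := h2 σ hσ
        rw [map_add] at this
        have h5 := congrArg (fun t => t + P.f σ a) this
        simp only [zero_add] at h5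
        rwa [aa] at h5)
      exact ⟨τ, hxa, h3, h4⟩)
  rw [card_translate, card_eq] at hτ
  have hne : ({x : W | x + a ∈ P.rd K s ∧ P.f τ x = 0 ∧ τ ∉ P.Rel K s}).Nonempty := by
    by_contra hn
    rw [Set.not_nonempty_iff_eq_empty] at hn
    rw [hn] at hτ
    simp at hτ
  obtain ⟨x0, h1, h2, h3⟩ := hne
  have h4 : Nat.card {x : W | x + a ∈ P.rd K s ∧ P.f τ x = 0 ∧ τ ∉ P.Rel K s} ≤
      2 ^ fr (P.rd K (s ∪ {τ})) := by
    rw [← card_eq, ← card_translate (P.rd K (s ∪ {τ})) x0]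
    apply Nat.card_mono (Set.toFinite _)
    rintro x ⟨k1, k2, -⟩
    show x + x0 ∈ P.rd K (s ∪ {τ})
    have k3 : x + x0 ∈ P.rd K s := by
      have := (P.rd K s).add_mem k1 h1
      have e : x + a + (x0 + a) = x + x0 := by
        rw [add_add_add_comm, ZModModule.add_self, add_zero]
      rwa [e] at this
    obtain ⟨k4, k5⟩ := mem_rd.1 k3
    refine mem_rd.2 ⟨k4, ?_⟩
    rintro σ (hσ | hσ)
    · exact k5 σ hσ
    · rw [Set.mem_singleton_iff] at hσ
      rw [hσ, map_add, k2, h2, add_zero]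
  apply h3
  show fr (P.rd K s) ≤ fr (P.rd K (s ∪ {τ})) + K
  have h5 : 2 ^ fr (P.rd K s) ≤ 2 ^ b * 2 ^ fr (P.rd K (s ∪ {τ})) :=
    hτ.trans (Nat.mul_le_mul G.hR h4)
  rw [← pow_add] at h5
  have h6 := (Nat.pow_le_pow_iff_right (by norm_num : 1 < 2)).1 h5
  have := G.hb
  omega

/-! ### images -/

/-- functionals vanishing on a subspace of `W` -/
def an (P : LP V W R) (A : Submodule (ZMod 2) W) : Submodule (ZMod 2) (V →ₗ[ZMod 2] ZMod 2) :=
  (A.map P.ι).dualAnnihilator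

theorem fr_an (P : LP V W R) (A : Submodule (ZMod 2) W) :
    fr A + fr (P.an A) = finrank (ZMod 2) V := by
  have h1 := Subspace.finrank_add_finrank_dualAnnihilator_eq (K := ZMod 2) (V := V)
    (A.map P.ι)
  have h2 := fr_map P.ι A
  rw [LinearMap.ker_eq_bot.2 P.inj, inf_bot_eq] at h2
  have h3 : fr (⊥ : Submodule (ZMod 2) W) = 0 := finrank_bot _ _
  have h4 : fr (A.map P.ι) + fr (P.an A) = finrank (ZMod 2) V := h1
  omega

theorem map_le_an (P : LP V W R) (σ : R) (A B : Submodule (ZMod 2) W)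
    (h : ∀ z ∈ B, P.f σ z = 0) : A.map (P.f σ) ≤ P.an B := by
  rintro _ ⟨x, hx, rfl⟩
  rw [an, Submodule.mem_dualAnnihilator]
  rintro _ ⟨z, hz, rfl⟩
  rw [P.sym, h z hz]
  rfl

theorem fr_img (P : LP V W R) (K : ℕ) (σ : R) (s : Set R) :
    fr ((P.rd K s).map (P.f σ)) + fr (P.rd K (s ∪ {σ})) = fr (P.rd K s) := by
  have h := fr_map (P.f σ) (P.rd K s)
  have e : P.rd K s ⊓ LinearMap.ker (P.f σ) = P.rd K (s ∪ {σ}) := by
    ext x
    simp only [Submodule.mem_inf, mem_rd, LinearMap.mem_ker, Set.mem_union,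
      Set.mem_singleton_iff]
    constructor
    · rintro ⟨⟨h1, h2⟩, h3⟩
      exact ⟨h1, fun τ h => h.elim (h2 τ) (fun e => e ▸ h3)⟩
    · rintro ⟨h1, h2⟩
      exact ⟨⟨h1, fun τ h => h2 τ (Or.inl h)⟩, h2 σ (Or.inr rfl)⟩
  rw [e] at h
  exact h

end gap

end LP

end Pool.Agent.H2FIN
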