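import Pool.Agent.H2FIN.Main
import Pool.Agent.ETCP.Basic

/-!
Large nondegenerate quaternionic data with bounded values contain two noncommuting elements of
rank one (helper2).
-/

set_option autoImplicit false
set_option linter.unusedSectionVars false
set_option linter.unusedVariables false

namespace Pool.Agent.H2FIN

open Module
open Pool.Agent.Helper58.PLine (QData)
open Pool.Agent.ETCP

section
variable {V Q : Type} [AddCommGroup V] [Module (ZMod 2) V] {S : QData V Q}

/-- sums of equal values -/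
theorem val_add {a b v w v' w' : V} (h : S.q a v = S.q b w) (h' : S.q a v' = S.q b w') :
    S.q a (v + v') = S.q b (w + w') := by
  obtain ⟨t, h1, h2, h3⟩ := link h
  obtain ⟨t', h1', h2', h3'⟩ := link h'
  have e1 : S.q a (v + v') = S.q a (t + t') := q_eq ((h1.add h1').of_eq rfl (by
    rw [add_add_add_comm]))
  have e2 : S.q b (w + w') = S.q b (t + t') := q_eq ((h2.add h2').of_eq rfl (by
    rw [add_add_add_comm]))
  have e3 : S.q a (t + t') = S.q b (t + t') := q_eq' (h3.add h3')
  rw [e1, e2, e3]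

theorem mk_eq_iff {x v w : V} :
    (S.ann x).mkQ v = (S.ann x).mkQ w ↔ S.q x v = S.q x w := by
  rw [Submodule.mkQ_apply, Submodule.mkQ_apply, Submodule.Quotient.eq, QData.eq_iff,
    show v - w = v + w by rw [sub_eq_add_neg, ZModModule.neg_eq_self]]

/-- the elements commuting with representatives of all values of `q (x, ·)` -/
noncomputable def cen (S : QData V Q) (x : V) : Submodule (ZMod 2) V :=
  ⨅ c : V ⧸ S.ann x, S.ann (Quotient.out c)

theorem mem_cen {x z : V} : z ∈ cen S x ↔ ∀ c : V ⧸ S.ann x, C S z (Quotient.out c) := by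
  unfold cen
  rw [Submodule.mem_iInf]
  refine forall_congr' fun c => ?_
  exact ⟨fun h => C.symm (S := S) h, fun h => C.symm (S := S) h⟩

theorem rep {x : V} (v : V) : C S x (v + Quotient.out ((S.ann x).mkQ v)) := by
  have h : (S.ann x).mkQ (Quotient.out ((S.ann x).mkQ v)) = (S.ann x).mkQ v :=
    Quotient.out_eq _
  exact q_eq_iff.1 (mk_eq_iff.1 h).symm

variable [Finite V]

theorem fr_iInf (m : ℕ) {I : Type} (A : I → Submodule (ZMod 2) V)
    (h : ∀ i, finrank (ZMod 2) V ≤ fr (A i) + m) (u : Finset I) :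
    finrank (ZMod 2) V ≤ fr (⨅ i ∈ u, A i) + u.card * m := by
  classical
  induction u using Finset.induction_on with
  | empty =>
    simp only [Finset.notMem_empty, iInf_false, iInf_top, Finset.card_empty, zero_mul, add_zero]
    rw [fr_top]
  | insert a u ha ih =>
    rw [Finset.iInf_insert, Finset.card_insert_of_notMem ha, Nat.succ_mul]
    have h1 := h a
    have h2 := fr_inf (X := ⊤) (le_top (a := A a)) (le_top (a := ⨅ i ∈ u, A i))
    rw [fr_top] at h2
    omega

theorem exists_max_rank (S : QData V Q) : ∃ y, ∀ x, Nat.card (S.ann y) ≤ Nat.card (S.ann x) :=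
  Finite.exists_min fun x => Nat.card (S.ann x)

instance finQuot (p : Submodule (ZMod 2) V) : Finite (V ⧸ p) :=
  Finite.of_surjective _ (Submodule.mkQ_surjective p)

theorem card_quot (S : QData V Q) (x : V) :
    Nat.card V = Nat.card (V ⧸ S.ann x) * Nat.card (S.ann x) := by
  rw [mul_comm]
  exact Submodule.card_eq_card_quotient_mul_card (S.ann x)

/-- the setting: `x` of maximal rank -/
structure Mx (S : QData V Q) (x : V) : Prop where
  mx : ∀ y, Nat.card (S.ann x) ≤ Nat.card (S.ann y)

theorem quot_le {x : V} (X : Mx S x) (y : V) :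
    Nat.card (V ⧸ S.ann y) ≤ Nat.card (V ⧸ S.ann x) := by
  have h1 := card_quot S x
  have h2 := card_quot S y
  have h3 := X.mx y
  by_contra hc
  push Not at hc
  have h4 : Nat.card (V ⧸ S.ann x) * Nat.card (S.ann x) <
      Nat.card (V ⧸ S.ann y) * Nat.card (S.ann y) :=
    Nat.mul_lt_mul_of_lt_of_le hc h3 Nat.card_pos
  omega

/-- the values of `x + z` are those of `x` -/
theorem rep' {x z : V} (X : Mx S x) (hz : z ∈ cen S x) (v : V) :
    ∃ c : V ⧸ S.ann x, C S (x + z) (v + Quotient.out c) := by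
  have hinj : Function.Injective (fun c : V ⧸ S.ann x => (S.ann (x + z)).mkQ (Quotient.out c)) := by
    intro c c' h
    have h1 := mk_eq_iff.1 h
    have h2 : ∀ d : V ⧸ S.ann x, S.q (x + z) (Quotient.out d) = S.q x (Quotient.out d) := by
      intro d
      apply q_eq'
      exact (mem_cen.1 hz d).of_eq (by rw [add_comm x z, aa]) rfl
    rw [h2, h2] at h1
    have h3 := mk_eq_iff.2 h1
    have e : ∀ d : V ⧸ S.ann x, (S.ann x).mkQ (Quotient.out d) = d := fun d =>
      Quotient.out_eq _
    rw [e, e] at h3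
    exact h3
  have hsur : Function.Surjective
      (fun c : V ⧸ S.ann x => (S.ann (x + z)).mkQ (Quotient.out c)) := by
    have := Fintype.ofFinite (V ⧸ S.ann x)
    have := Fintype.ofFinite (V ⧸ S.ann (x + z))
    refine ((Fintype.bijective_iff_injective_and_card _).2 ⟨hinj, ?_⟩).2
    apply le_antisymm (Fintype.card_le_of_injective _ hinj)
    rw [← Nat.card_eq_fintype_card, ← Nat.card_eq_fintype_card]
    exact quot_le X _
  obtain ⟨c, hc⟩ := hsur ((S.ann (x + z)).mkQ v)
  exact ⟨c, q_eq_iff.1 (mk_eq_iff.1 hc).symm⟩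

/-- `V = V_z + V_(x+z)` -/
theorem split {x z : V} (X : Mx S x) (hz : z ∈ cen S x) (v : V) :
    ∃ w, C S (x + z) w ∧ C S z (v + w) := by
  obtain ⟨d, hd⟩ := rep' X hz (v + Quotient.out ((S.ann x).mkQ v))
  refine ⟨_, hd, ?_⟩
  have h1 := mem_cen.1 hz ((S.ann x).mkQ v)
  have h2 := mem_cen.1 hz d
  refine (h1.add h2).of_eq rfl ?_
  rw [← add_assoc, ← add_assoc, ZModModule.add_self, zero_add]

theorem exists_val {x z : V} (X : Mx S x) (hz : z ∈ cen S x) (v : V) :
    ∃ w, S.q z v = S.q x w := by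
  obtain ⟨w, h1, h2⟩ := split X hz v
  refine ⟨w, ?_⟩
  rw [q_eq h2]
  exact (q_eq' (h1 : C S (x + z) w)).symm

/-- a representative of the value `q (z, v)` -/
noncomputable def wf {x : V} (X : Mx S x) (z : cen S x) (v : V) : V :=
  Classical.choose (exists_val X z.2 v)

theorem wf_spec {x : V} (X : Mx S x) (z : cen S x) (v : V) :
    S.q z.1 v = S.q x (wf X z v) := Classical.choose_spec (exists_val X z.2 v)

/-- the bilinear map to `V / V_x` -/
noncomputable def kap {x : V} (X : Mx S x) :
    cen S x →ₗ[ZMod 2] V →ₗ[ZMod 2] (V ⧸ S.ann x) :=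
  LinearMap.mk₂ (ZMod 2) (fun z v => (S.ann x).mkQ (wf X z v))
    (by
      intro z z' v
      rw [← map_add, mk_eq_iff, ← wf_spec X (z + z') v]
      have h1 := wf_spec X z v
      have h2 := wf_spec X z' v
      rw [S.symm] at h1 h2 ⊢
      exact val_add h1 h2)
    (by
      intro c z v
      rcases Pool.Agent.Helper58.PLine.zm c with rfl | rfl
      · rw [zero_smul, zero_smul]
        have h := wf_spec X 0 v
        have h0 : (S.ann x).mkQ (wf X 0 v) = (S.ann x).mkQ 0 := by
          rw [mk_eq_iff, ← h, S.q_zero]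
          exact C.zero' (S := S) v
        rw [h0, map_zero]
      · rw [one_smul, one_smul])
    (by
      intro z v v'
      rw [← map_add, mk_eq_iff, ← wf_spec X z (v + v')]
      exact val_add (wf_spec X z v) (wf_spec X z v'))
    (by
      intro c z v
      rcases Pool.Agent.Helper58.PLine.zm c with rfl | rfl
      · rw [zero_smul, zero_smul]
        have h := wf_spec X z 0
        have h0 : (S.ann x).mkQ (wf X z 0) = (S.ann x).mkQ 0 := by
          rw [mk_eq_iff, ← h, S.q_zero, S.q_zero]
        rw [h0, map_zero]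
      · rw [one_smul, one_smul])

theorem kap_apply {x : V} (X : Mx S x) (z : cen S x) (v : V) :
    kap X z v = (S.ann x).mkQ (wf X z v) := rfl

theorem kap_eq_iff {x : V} (X : Mx S x) (z z' : cen S x) (v v' : V) :
    kap X z v = kap X z' v' ↔ S.q z.1 v = S.q z'.1 v' := by
  rw [kap_apply, kap_apply, mk_eq_iff, ← wf_spec, ← wf_spec]

theorem kap_zero_iff {x : V} (X : Mx S x) (z : cen S x) (v : V) :
    kap X z v = 0 ↔ C S z.1 v := by
  have h := kap_eq_iff X z 0 v 0
  rw [map_zero] at h
  rw [h, S.q_zero]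
  rfl

/-- functionals which separate -/
theorem exists_fun {M : Type} [AddCommGroup M] [Module (ZMod 2) M] {x : M} (hx : x ≠ 0) :
    ∃ f : M →ₗ[ZMod 2] ZMod 2, f x = 1 := by
  obtain ⟨f, hf, -⟩ := Pool.Agent.Helper58.PLine.exists_functional
    (p := (⊥ : Submodule (ZMod 2) M)) (x := x) (by rwa [Submodule.mem_bot])
  exact ⟨f, hf⟩

/-- the linked pair of an element of maximal rank -/
noncomputable def pair {x : V} (X : Mx S x) :
    LP V (cen S x) ((V ⧸ S.ann x) →ₗ[ZMod 2] ZMod 2) where
  ι := (cen S x).subtype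
  inj := (cen S x).injective_subtype
  f :=
    { toFun := fun l => (kap X).compr₂ l
      map_add' := fun l l' => by
        ext z v
        rfl
      map_smul' := fun c l => by
        ext z v
        rfl }
  sym := by
    intro ρ z z'
    show ρ (kap X z z'.1) = ρ (kap X z' z.1)
    congr 1
    rw [kap_eq_iff, S.symm]
  link := by
    intro ρ σ z z' h
    have hl : ∀ v, ρ (kap X z v) = σ (kap X z' v) := fun v => LinearMap.congr_fun h v
    -- the map `V × V → V / V_x`
    obtain ⟨Φ, hΦ⟩ : ∃ Φ : V × V →ₗ[ZMod 2] (V ⧸ S.ann x), ∀ p, Φ p = kap X z p.1 + kap X z' p.2 :=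
      ⟨(kap X z).coprod (kap X z'), fun p => rfl⟩
    obtain ⟨Λ, hΛ⟩ : ∃ Λ : V × V →ₗ[ZMod 2] ZMod 2, ∀ p, Λ p = ρ (kap X z p.1) + ρ (kap X z p.2) :=
      ⟨((ρ.comp (kap X z))).coprod (ρ.comp (kap X z)), fun p => rfl⟩
    have hmem : Λ ∈ (LinearMap.ker Φ).dualAnnihilator := by
      rw [Submodule.mem_dualAnnihilator]
      rintro ⟨v, v'⟩ hv
      rw [LinearMap.mem_ker, hΦ] at hv
      have h1 : kap X z v = kap X z' v' := eq_of_add_zero hv
      obtain ⟨t, h2, h3, -⟩ := ETCP.link ((kap_eq_iff X z z' v v').1 h1)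
      have h4 : kap X z v = kap X z t := by
        have := (kap_zero_iff X z (v + t)).2 h2
        rw [map_add] at this
        exact eq_of_add_zero this
      have h5 : kap X z' v' = kap X z' t := by
        have := (kap_zero_iff X z' (v' + t)).2 h3
        rw [map_add] at this
        exact eq_of_add_zero this
      rw [hΛ]
      show ρ (kap X z v) + ρ (kap X z v') = 0
      rw [h4, hl t, hl v', h5, ZModModule.add_self]
    rw [← LinearMap.range_dualMap_eq_dualAnnihilator_ker] at hmem
    obtain ⟨τ, hτ⟩ := hmem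
    have hτ' : ∀ p, τ (Φ p) = Λ p := fun p => LinearMap.congr_fun hτ p
    refine ⟨τ, ?_, ?_⟩
    · ext v
      show τ (kap X z v) = ρ (kap X z v)
      have := hτ' (v, 0)
      rw [hΦ, hΛ] at this
      simpa using this
    · ext v
      show τ (kap X z' v) = ρ (kap X z v)
      have := hτ' (0, v)
      rw [hΦ, hΛ] at this
      simpa using this

theorem pair_f {x : V} (X : Mx S x) (l : (V ⧸ S.ann x) →ₗ[ZMod 2] ZMod 2) (z : cen S x) (v : V) :
    (pair X).f l z v = l (kap X z v) := rfl

theorem rank_one_of_pair {x : V} (X : Mx S x) {z : cen S x} {ρ} {y : V}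
    (h0 : (pair X).f ρ z y ≠ 0) (h : ∀ τ, (pair X).f τ z = 0 ∨ (pair X).f τ z = (pair X).f ρ z)
    (v : V) : C S z.1 v ∨ S.q z.1 v = S.q z.1 y := by
  by_cases hv : C S z.1 v
  · exact Or.inl hv
  right
  rw [← kap_eq_iff X z z v y]
  have hy1 : ρ (kap X z y) = 1 := Pool.Agent.Helper58.PLine.zm_ne_zero h0
  have hk : kap X z v ≠ 0 := fun e => hv ((kap_zero_iff X z v).1 e)
  obtain ⟨τ1, h1⟩ := exists_fun hk
  have hv1 : ρ (kap X z v) = 1 := by
    rcases h τ1 with e | e
    · have := LinearMap.congr_fun e v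
      rw [pair_f, h1] at this
      exact absurd this one_ne_zero
    · have := LinearMap.congr_fun e v
      rw [pair_f, pair_f, h1] at this
      exact this.symm
  by_contra hne
  have hs : kap X z v + kap X z y ≠ 0 := fun e => hne (eq_of_add_zero e)
  obtain ⟨τ2, h2⟩ := exists_fun hs
  rcases h τ2 with e | e
  · have e1 := LinearMap.congr_fun e v
    have e2 := LinearMap.congr_fun e y
    rw [pair_f] at e1 e2
    rw [map_add, e1, e2] at h2
    revert h2
    simp
  · have e1 := LinearMap.congr_fun e v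
    have e2 := LinearMap.congr_fun e y
    rw [pair_f, pair_f] at e1 e2
    rw [map_add, e1, e2, hy1, hv1] at h2
    revert h2
    decide

end

/-- **Large nondegenerate data with bounded values contain two noncommuting elements with the same
single nonzero value.** -/
theorem exists_pair (m : ℕ) (V Q : Type) [AddCommGroup V] [Module (ZMod 2) V]
    [Finite V] (S : QData V Q) (hm : ∀ x, Nat.card V ≤ m * Nat.card (S.ann x))
    (hnd : ∀ x, (∀ v, C S x v) → x = 0) (hbig' : LP.NN m < Nat.card V) :
    ∃ x y, ¬ C S x y ∧ (∀ v, C S x v ∨ S.q x v = S.q x y) ∧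
      (∀ v, C S y v ∨ S.q y v = S.q x y) := by
  obtain ⟨N, hN0⟩ : ∃ N, N = LP.Ks m (m * m) ((2 ^ m) ^ 2) + 1 := ⟨_, rfl⟩
  have hbig : 2 ^ (N + m * m) < Nat.card V := by
    refine lt_of_le_of_lt ?_ hbig'
    have e : (2 ^ m) ^ 2 = 4 ^ m := by
      rw [← pow_mul, mul_comm, pow_mul]
      norm_num
    have h1 := LP.Ks_bound m (4 ^ m)
    apply Nat.pow_le_pow_right (by norm_num)
    rw [hN0, e]
    omega
  obtain ⟨x, hx⟩ := exists_max_rank S
  have X : Mx S x := ⟨hx⟩
  have hfr : ∀ y, finrank (ZMod 2) V ≤ fr (S.ann y) + m := by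
    intro y
    have h1 := hm y
    have h2 : Nat.card V = 2 ^ finrank (ZMod 2) V := by
      rw [Module.natCard_eq_pow_finrank (K := ZMod 2), Nat.card_zmod]
    rw [card_eq, h2] at h1
    have h3 : 2 ^ finrank (ZMod 2) V ≤ 2 ^ (fr (S.ann y) + m) := by
      rw [pow_add, mul_comm]
      exact h1.trans (Nat.mul_le_mul_right _ (Nat.lt_two_pow_self).le)
    exact (Nat.pow_le_pow_iff_right (by norm_num : 1 < 2)).1 h3
  have hq : Nat.card (V ⧸ S.ann x) ≤ m := by
    have h1 := card_quot S x
    have h2 := hm x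
    rw [h1] at h2
    exact Nat.le_of_mul_le_mul_right h2 Nat.card_pos
  have hR : Nat.card ((V ⧸ S.ann x) →ₗ[ZMod 2] ZMod 2) ≤ m := by
    have h1 : Nat.card ((V ⧸ S.ann x) →ₗ[ZMod 2] ZMod 2) = Nat.card (V ⧸ S.ann x) := by
      rw [Module.natCard_eq_pow_finrank (K := ZMod 2) (V := (V ⧸ S.ann x) →ₗ[ZMod 2] ZMod 2),
        Module.natCard_eq_pow_finrank (K := ZMod 2) (V := V ⧸ S.ann x)]
      congr 1
      exact Subspace.dual_finrank_eq
    omega
  have hcen : finrank (ZMod 2) V ≤ fr (cen S x) + m * m := by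
    have := Fintype.ofFinite (V ⧸ S.ann x)
    have h1 := fr_iInf m (fun c : V ⧸ S.ann x => S.ann (Quotient.out c)) (fun c => hfr _)
      Finset.univ
    have h2 : (⨅ c ∈ (Finset.univ : Finset (V ⧸ S.ann x)), S.ann (Quotient.out c)) = cen S x := by
      simp [cen]
    rw [h2, Finset.card_univ, ← Nat.card_eq_fintype_card] at h1
    have h3 := Nat.mul_le_mul_right m hq
    omega
  have hVc : Nat.card V = 2 ^ finrank (ZMod 2) V := by
    rw [Module.natCard_eq_pow_finrank (K := ZMod 2), Nat.card_zmod]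
  have hNV : N + m * m ≤ finrank (ZMod 2) V := by
    by_contra hc
    push Not at hc
    have : 2 ^ finrank (ZMod 2) V ≤ 2 ^ (N + m * m) :=
      Nat.pow_le_pow_right (by norm_num) hc.le
    omega
  obtain ⟨z, y, ρ, h0, h1, h2⟩ := LP.core m (m * m) V (cen S x)
    ((V ⧸ S.ann x) →ₗ[ZMod 2] ZMod 2) (pair X) hR hcen (by
      intro z hz
      apply Subtype.ext
      apply hnd
      intro v
      rw [← kap_zero_iff X z v]
      by_contra hk
      obtain ⟨l, hl⟩ := exists_fun hk
      have := LinearMap.congr_fun (hz l) v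
      rw [pair_f, hl] at this
      exact one_ne_zero this) (by
      have : finrank (ZMod 2) (cen S x) = fr (cen S x) := rfl
      omega)
  have h0' : (pair X).f ρ z y.1 ≠ 0 := h0
  have h0'' : (pair X).f ρ y z.1 ≠ 0 := by
    have := (pair X).sym ρ y z
    intro e
    apply h0
    rw [← this]
    exact e
  refine ⟨z.1, y.1, ?_, rank_one_of_pair X h0' h1, ?_⟩
  · intro hc
    apply h0'
    rw [pair_f, (kap_zero_iff X z y.1).2 hc, map_zero]
  · intro v
    have := rank_one_of_pair X h0'' h2 v
    rwa [S.symm y.1 z.1] at this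

end Pool.Agent.H2FIN
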