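import Pool.Agent.H2FIN.Data
import Pool.Agent.ETCMR.Fin2

/-!
Finiteness theorem for quaternionic structures with bounded values (helper2).
-/

set_option autoImplicit false
set_option linter.unusedSectionVars false
set_option linter.unusedVariables false

namespace Pool.Agent.H2FIN

open QS
open Pool.Agent.Helper58.PLine (QData)
open Pool.Agent.ETCP
open Pool.Agent.ETCMR (IsProd)
open Pool.Agent.ETCR (XC)

/-- for every `x` the map `q (x, ·)` has at most `m` values -/
def Bd (m : ℕ) (S : QStruct) : Prop := ∀ x, Nat.card (Set.range (S.q x)) ≤ m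

theorem ann_of_bd {m : ℕ} (S : QStruct) [Finite S.G] (h : Bd m S) (x : Additive S.G) :
    Nat.card (Additive S.G) ≤ m * Nat.card ((ETC.toData S).ann x) := by
  have hfin : Finite (Additive S.G) := (inferInstance : Finite S.G)
  have hf : Finite (Set.range (S.q (Additive.toMul x))) := Set.finite_range _
  have h1 := card_quot (ETC.toData S) x
  have h2 : Nat.card (Additive S.G ⧸ (ETC.toData S).ann x) ≤
      Nat.card (Set.range (S.q (Additive.toMul x))) := by
    apply Nat.card_le_card_of_injective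
      (fun c : Additive S.G ⧸ (ETC.toData S).ann x =>
        (⟨S.q (Additive.toMul x) (Additive.toMul (Quotient.out c)), ⟨_, rfl⟩⟩ :
          Set.range (S.q (Additive.toMul x))))
    intro c c' hcc
    have h3 : (ETC.toData S).q x (Quotient.out c) = (ETC.toData S).q x (Quotient.out c') :=
      congrArg Subtype.val hcc
    have h4 := mk_eq_iff.2 h3
    have e : ∀ d : Additive S.G ⧸ (ETC.toData S).ann x,
        ((ETC.toData S).ann x).mkQ (Quotient.out d) = d := fun d => Quotient.out_eq _
    rw [e, e] at h4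
    exact h4
  rw [h1]
  exact Nat.mul_le_mul_right _ (h2.trans (h _))

theorem eight_le (m : ℕ) : 8 ≤ LP.NN m := by
  unfold LP.NN
  calc 8 = 2 ^ 3 := by norm_num
    _ ≤ 2 ^ ((m + 6) ^ (4 ^ m + 2)) := by
      apply Nat.pow_le_pow_right (by norm_num)
      calc 3 ≤ m + 6 := by omega
        _ = (m + 6) ^ 1 := (pow_one _).symm
        _ ≤ (m + 6) ^ (4 ^ m + 2) := Nat.pow_le_pow_right (by omega)
          (le_trans (by norm_num : 1 ≤ 2) (Nat.le_add_left 2 _))

/-- a structure with bounded values is small, or has two quaternions, or is a product -/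
theorem trich (m : ℕ) (S : QStruct) [Finite S.G] (h : Bd m S) :
    Nat.card S.G ≤ LP.NN m ∨
      ((∀ a, (∀ b, S.q a b = S.zero) → a = 1) ∧ Nat.card S.Q = 2) ∨ IsProd S := by
  by_cases hs : Nat.card S.G ≤ LP.NN m
  · exact Or.inl hs
  right
  push Not at hs
  have h4 := eight_le m
  by_cases hnd : ∀ a, (∀ b, S.q a b = S.zero) → a = 1
  · have hfin : Finite (Additive S.G) := (inferInstance : Finite S.G)
    obtain ⟨x, y, hxy, hx, hy⟩ := exists_pair m (Additive S.G) S.Q (ETC.toData S)
      (ann_of_bd S h) (fun x hx => hnd (Additive.toMul x) (fun b => hx (Additive.ofMul b))) hs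
    have hc : (ETC.toData S).q x y ≠ S.zero := hxy
    rcases Pool.Agent.ETCMR.case1 S hnd (c := (ETC.toData S).q x y) hc (t := x) (t' := y)
      hx hy hxy with h1 | h1
    · exact Or.inr h1
    · exact Or.inl ⟨hnd, h1⟩
  · right
    push Not at hnd
    obtain ⟨r, hr0, hr⟩ := hnd
    obtain ⟨T, L, h1, -, -, -, h2, h3⟩ := ETCM.rad_split S hr hr0
    exact ⟨T, L, by omega, by omega, h3⟩

/-- direct products of structures of local type and of structures in `P` with at most `N`
elements -/
inductive SumOf (P : QStruct → Prop) (N : ℕ) : QStruct → Prop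
  | small (S : QStruct) : P S → Nat.card S.G ≤ N → SumOf P N S
  | loc (S : QStruct) : Finite S.G → 8 ≤ Nat.card S.G →
      (∀ a, (∀ b, S.q a b = S.zero) → a = 1) → Nat.card S.Q = 2 → SumOf P N S
  | prod (S T : QStruct) : SumOf P N S → SumOf P N T → SumOf P N (prod S T)
  | iso (S T : QStruct) : Iso S T → SumOf P N S → SumOf P N T

theorem sumOf (m : ℕ) (P : QStruct → Prop) (hP : ∀ S, P S → Finite S.G ∧ Bd m S)
    (hfac : ∀ A B S, Iso (prod A B) S → P S → P A ∧ P B) :
    ∀ (n : ℕ) (S : QStruct), Nat.card S.G = n → P S → SumOf P (LP.NN m) S := by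
  intro n
  induction n using Nat.strong_induction_on with
  | _ n ih =>
    intro S hn hS
    obtain ⟨hf, hb⟩ := hP S hS
    have h8 := eight_le m
    by_cases hs : Nat.card S.G ≤ LP.NN m
    · exact SumOf.small S hS hs
    rcases trich m S hb with h | ⟨h1, h2⟩ | ⟨A, B, hA, hB, hi⟩
    · exact absurd h hs
    · exact SumOf.loc S hf (by omega) h1 h2
    · obtain ⟨pA, pB⟩ := hfac A B S hi hS
      have hc : Nat.card A.G * Nat.card B.G = Nat.card S.G := by
        obtain ⟨φ, -, -⟩ := hi
        rw [← Nat.card_congr φ.toEquiv]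
        show _ = Nat.card (A.G × B.G)
        rw [Nat.card_prod]
      refine SumOf.iso _ S hi (SumOf.prod A B (ih _ ?_ A rfl pA) (ih _ ?_ B rfl pB))
      · have := hP A pA
        have h3 : 0 < Nat.card A.G := by omega
        nlinarith
      · have h3 : 0 < Nat.card B.G := by omega
        nlinarith

theorem elem_of_sumOf {P : QStruct → Prop} {N : ℕ}
    (h : ∀ S, P S → Nat.card S.G ≤ N → ElemType S) (S : QStruct) (hS : SumOf P N S) :
    ElemType S := by
  induction hS with
  | small S h1 h2 => exact h S h1 h2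
  | loc S h1 h2 h3 h4 => exact ElemType.loc S h1 h2 h3 h4
  | prod S T _ _ h1 h2 => exact ElemType.prod S T h1 h2
  | iso S T h1 _ h2 => exact ElemType.iso S T h1 h2

theorem bd_factor {m : ℕ} (A B S : QStruct) (hi : Iso (prod A B) S) (hf : Finite S.G)
    (hS : Bd m S) : (Finite A.G ∧ Bd m A) ∧ (Finite B.G ∧ Bd m B) := by
  obtain ⟨φ, -, hφ⟩ := hi
  have hfP : Finite (A.G × B.G) := Finite.of_injective φ φ.injective
  have hfA : Finite A.G := Finite.of_injective (fun a : A.G => (a, (1 : B.G)))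
    (fun a a' h => (Prod.ext_iff.1 h).1)
  have hfB : Finite B.G := Finite.of_injective (fun b : B.G => ((1 : A.G), b))
    (fun b b' h => (Prod.ext_iff.1 h).2)
  refine ⟨⟨hfA, fun x => ?_⟩, ⟨hfB, fun x => ?_⟩⟩
  · refine le_trans ?_ (hS (φ (x, 1)))
    have hf2 : Finite (Set.range (S.q (φ (x, 1)))) := Set.finite_range _
    have hcc : ∀ c : Set.range (A.q x), ∃ v : A.G, A.q x v = c := fun c => c.2
    choose g hg using hcc
    apply Nat.card_le_card_of_injective
      (fun c : Set.range (A.q x) => (⟨S.q (φ (x, 1)) (φ (g c, 1)), ⟨_, rfl⟩⟩ :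
        Set.range (S.q (φ (x, 1)))))
    intro c c' h
    have h3 : S.q (φ (x, 1)) (φ (g c, 1)) = S.q (φ (x, 1)) (φ (g c', 1)) :=
      congrArg Subtype.val h
    have h5 := (hφ _ _ _ _).2 h3
    have h6 : A.q x (g c) = A.q x (g c') := congrArg Prod.fst h5
    rw [hg, hg] at h6
    exact Subtype.ext h6
  · refine le_trans ?_ (hS (φ (1, x)))
    have hf2 : Finite (Set.range (S.q (φ (1, x)))) := Set.finite_range _
    have hcc : ∀ c : Set.range (B.q x), ∃ v : B.G, B.q x v = c := fun c => c.2
    choose g hg using hcc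
    apply Nat.card_le_card_of_injective
      (fun c : Set.range (B.q x) => (⟨S.q (φ (1, x)) (φ (1, g c)), ⟨_, rfl⟩⟩ :
        Set.range (S.q (φ (1, x)))))
    intro c c' h
    have h3 : S.q (φ (1, x)) (φ (1, g c)) = S.q (φ (1, x)) (φ (1, g c')) :=
      congrArg Subtype.val h
    have h5 := (hφ _ _ _ _).2 h3
    have h6 : B.q x (g c) = B.q x (g c') := congrArg Prod.snd h5
    rw [hg, hg] at h6
    exact Subtype.ext h6

theorem finite_Q (S : QStruct) [Finite S.G] : Finite S.Q := by
  have hs : Function.Surjective fun p : S.G × S.G => S.q p.1 p.2 := fun c => by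
    obtain ⟨a, b, h⟩ := S.surj c
    exact ⟨(a, b), h⟩
  exact Finite.of_surjective _ hs

theorem bd_of_card {m : ℕ} (S : QStruct) [Finite S.G] (h : Nat.card S.Q ≤ m) : Bd m S := by
  intro x
  have := finite_Q S
  exact (Nat.card_le_card_of_injective (fun c => c.1) Subtype.val_injective).trans h

theorem card_factor {m : ℕ} (A B S : QStruct) (hi : Iso (prod A B) S) (hf : Finite S.G)
    (hS : Nat.card S.Q ≤ m) : (Finite A.G ∧ Nat.card A.Q ≤ m) ∧ (Finite B.G ∧ Nat.card B.Q ≤ m) := by
  obtain ⟨⟨hfA, -⟩, hfB, -⟩ := bd_factor (m := m) A B S hi hf (bd_of_card S hS)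
  obtain ⟨φ, -, hφ⟩ := hi
  have hQ := finite_Q S
  refine ⟨⟨hfA, le_trans ?_ hS⟩, ⟨hfB, le_trans ?_ hS⟩⟩
  · choose a b hab using A.surj
    apply Nat.card_le_card_of_injective (fun c : A.Q => S.q (φ (a c, 1)) (φ (b c, 1)))
    intro c c' h
    have h5 := (hφ _ _ _ _).2 h
    have h6 : A.q (a c) (b c) = A.q (a c') (b c') := congrArg Prod.fst h5
    rwa [hab, hab] at h6
  · choose a b hab using B.surj
    apply Nat.card_le_card_of_injective (fun c : B.Q => S.q (φ (1, a c)) (φ (1, b c)))
    intro c c' h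
    have h5 := (hφ _ _ _ _).2 h
    have h6 : B.q (a c) (b c) = B.q (a c') (b c') := congrArg Prod.snd h5
    rwa [hab, hab] at h6

/-- **Finiteness theorem.** -/
theorem finiteness (m : ℕ) (S : QStruct) (hf : Finite S.G) (hb : Bd m S) :
    SumOf (fun T => Finite T.G ∧ Bd m T) (2 ^ ((m + 6) ^ (4 ^ m + 2))) S :=
  sumOf m _ (fun _ h => h) (fun A B S hi h => bd_factor A B S hi h.1 h.2) _ S rfl ⟨hf, hb⟩

theorem finiteness_card (m : ℕ) (S : QStruct) (hf : Finite S.G) (hb : Nat.card S.Q ≤ m) :
    SumOf (fun T => Finite T.G ∧ Nat.card T.Q ≤ m) (2 ^ ((m + 6) ^ (4 ^ m + 2))) S :=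
  sumOf m _ (fun T h => ⟨h.1, by have := h.1; exact bd_of_card T h.2⟩)
    (fun A B S hi h => card_factor A B S hi h.1 h.2) _ S rfl ⟨hf, hb⟩

end Pool.Agent.H2FIN
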