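import Mathlib

/-!
Linear algebra over `F_2` for the finiteness theorem (helper2): dimensions, coverings and the
definition of a linked pair.
-/

set_option autoImplicit false

namespace Pool.Agent.H2FIN

open Module

section dims
variable {M N : Type} [AddCommGroup M] [Module (ZMod 2) M] [AddCommGroup N] [Module (ZMod 2) N]

instance finDual [Finite M] : Finite (M →ₗ[ZMod 2] ZMod 2) :=
  Finite.of_injective (fun f : M →ₗ[ZMod 2] ZMod 2 => (f : M → ZMod 2)) DFunLike.coe_injective

/-- the dimension of a subspace -/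
noncomputable def fr (A : Submodule (ZMod 2) M) : ℕ := finrank (ZMod 2) A

theorem card_eq [Finite M] (A : Submodule (ZMod 2) M) : Nat.card A = 2 ^ fr A := by
  rw [Module.natCard_eq_pow_finrank (K := ZMod 2), Nat.card_zmod]
  rfl

theorem fr_mono [Finite M] {A B : Submodule (ZMod 2) M} (h : A ≤ B) : fr A ≤ fr B :=
  Submodule.finrank_mono h

theorem fr_sup_inf [Finite M] (A B : Submodule (ZMod 2) M) :
    fr (A ⊔ B) + fr (A ⊓ B) = fr A + fr B :=
  Submodule.finrank_sup_add_finrank_inf_eq A B

theorem fr_inf [Finite M] {A B X : Submodule (ZMod 2) M} (hA : A ≤ X) (hB : B ≤ X) :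
    fr A + fr B ≤ fr X + fr (A ⊓ B) := by
  have h1 := fr_sup_inf A B
  have h2 : fr (A ⊔ B) ≤ fr X := fr_mono (sup_le hA hB)
  omega

theorem fr_top [Finite M] : fr (⊤ : Submodule (ZMod 2) M) = finrank (ZMod 2) M :=
  finrank_top _ _

theorem fr_map [Finite M] (g : M →ₗ[ZMod 2] N) (A : Submodule (ZMod 2) M) :
    fr (A.map g) + fr (A ⊓ LinearMap.ker g) = fr A := by
  have h1 := LinearMap.finrank_range_add_finrank_ker (g.domRestrict A)
  have h2 : LinearMap.range (g.domRestrict A) = A.map g := by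
    ext y
    constructor
    · rintro ⟨x, rfl⟩
      exact ⟨x, x.2, rfl⟩
    · rintro ⟨x, hx, rfl⟩
      exact ⟨⟨x, hx⟩, rfl⟩
  have h3 : finrank (ZMod 2) (LinearMap.ker (g.domRestrict A)) = fr (A ⊓ LinearMap.ker g) := by
    have h4 : (LinearMap.ker (g.domRestrict A)).map A.subtype = A ⊓ LinearMap.ker g := by
      ext y
      constructor
      · rintro ⟨x, hx, rfl⟩
        exact ⟨x.2, hx⟩
      · rintro ⟨hy, hy'⟩
        exact ⟨⟨y, hy⟩, hy', rfl⟩
    unfold fr
    rw [← h4]
    exact (Submodule.finrank_map_subtype_eq A _).symm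
  rw [h2, h3] at h1
  exact h1

/-- covering by sets -/
theorem exists_big {X I : Type} [Finite I] [Nonempty I] (L : Set X)
    (A : I → Set X) (hA : ∀ i, (A i).Finite) (h : ∀ x ∈ L, ∃ i, x ∈ A i) :
    ∃ i, Nat.card L ≤ Nat.card I * Nat.card (A i) := by
  by_contra hc
  push Not at hc
  have := Fintype.ofFinite I
  have h1 : Nat.card L ≤ ∑ i : I, Nat.card (A i) := by
    have hs : L ⊆ ⋃ i, A i := fun x hx => by
      obtain ⟨i, hi⟩ := h x hx
      exact Set.mem_iUnion.2 ⟨i, hi⟩
    have hf : (⋃ i, A i).Finite := Set.finite_iUnion hA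
    have h2 : Nat.card L ≤ Nat.card (⋃ i, A i) := Nat.card_mono hf hs
    refine h2.trans ?_
    have h3 := Set.ncard_iUnion_le_of_fintype A
    exact h3
  have h2 : Nat.card I * Nat.card L ≤ ∑ i : I, Nat.card I * Nat.card (A i) := by
    rw [← Finset.mul_sum]
    exact Nat.mul_le_mul_left _ h1
  have h3 : ∑ i : I, Nat.card I * Nat.card (A i) < ∑ _i : I, Nat.card L := by
    apply Finset.sum_lt_sum_of_nonempty
    · exact Finset.univ_nonempty
    · intro i _
      exact hc i
  rw [Finset.sum_const, Finset.card_univ, ← Nat.card_eq_fintype_card, smul_eq_mul] at h3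
  omega

end dims

end Pool.Agent.H2FIN
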