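import Pool.Agent.H2FIN.Add

/-!
Linked pairs of `F_2`-spaces: large linked pairs have an element of rank one (helper2).
-/

set_option autoImplicit false
set_option linter.unusedSectionVars false
set_option linter.unusedVariables false

namespace Pool.Agent.H2FIN

open Module

namespace LP

section
variable {V W R : Type} [AddCommGroup V] [Module (ZMod 2) V] [AddCommGroup W]
    [Module (ZMod 2) W] [AddCommGroup R] [Module (ZMod 2) R]

variable [Finite V] [Finite W] [Finite R]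
variable {P : LP V W R} {b c K K' : ℕ}

theorem inW_congr {ρ' ρ'' σ : R} (h : ρ' + ρ'' ∈ P.Rs K) (h1 : P.InW K ρ'' σ) :
    P.InW K ρ' σ := by
  obtain ⟨y, hy, hy1, hy2⟩ := h1
  refine ⟨y, hy, hy1, ?_⟩
  have := f_Rs h hy
  rw [fadd] at this
  rw [eq_of_add_zero this]
  exact hy2

/-- a form in `W ρ` and in no other `W ρ'` -/
theorem exists_special (G : Gap P b c K K') {ρ : R} (hρ : P.Atom K ρ) : ∀ (n : ℕ) (σ : R),
    P.InW K ρ σ → Nat.card {ρ' | P.Atom K ρ' ∧ ρ + ρ' ∉ P.Rs K ∧ P.InW K ρ' σ} ≤ n →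
    ∃ σ, P.InW K ρ σ ∧ ∀ ρ', P.Atom K ρ' → ρ + ρ' ∉ P.Rs K → ¬ P.InW K ρ' σ := by
  intro n
  induction n with
  | zero =>
    intro σ h hc
    refine ⟨σ, h, fun ρ' h1 h2 h3 => ?_⟩
    have : 0 < Nat.card {ρ' | P.Atom K ρ' ∧ ρ + ρ' ∉ P.Rs K ∧ P.InW K ρ' σ} :=
      Nat.card_pos_iff.2 ⟨⟨⟨ρ', h1, h2, h3⟩⟩, inferInstance⟩
    omega
  | succ n ih =>
    intro σ h hc
    by_cases he : ∀ ρ', P.Atom K ρ' → ρ + ρ' ∉ P.Rs K → ¬ P.InW K ρ' σ
    · exact ⟨σ, h, he⟩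
    push Not at he
    obtain ⟨ρ', h1, h2, h3⟩ := he
    have h4 : ¬ P.InW K ρ' (σ + ρ') := not_both G h1 h3
    have h2' : ρ' + ρ ∉ P.Rs K := by rwa [add_comm]
    refine ih (σ + ρ') (add_law G h1 hρ h2' h) ?_
    have hss : {ρ'' | P.Atom K ρ'' ∧ ρ + ρ'' ∉ P.Rs K ∧ P.InW K ρ'' (σ + ρ')} ⊂
        {ρ'' | P.Atom K ρ'' ∧ ρ + ρ'' ∉ P.Rs K ∧ P.InW K ρ'' σ} := by
      refine ⟨?_, fun hh => h4 (hh (show ρ' ∈ _ from ⟨h1, h2, h3⟩)).2.2⟩
      rintro ρ'' ⟨k1, k2, k3⟩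
      refine ⟨k1, k2, ?_⟩
      by_cases k4 : ρ' + ρ'' ∈ P.Rs K
      · exact absurd (inW_congr k4 k3) h4
      · have := add_law G h1 k1 k4 k3
        rwa [aa] at this
    have := Set.ncard_lt_ncard hss (Set.toFinite _)
    have e1 : Nat.card {ρ'' | P.Atom K ρ'' ∧ ρ + ρ'' ∉ P.Rs K ∧ P.InW K ρ'' (σ + ρ')} <
        Nat.card {ρ'' | P.Atom K ρ'' ∧ ρ + ρ'' ∉ P.Rs K ∧ P.InW K ρ'' σ} := this
    omega

theorem gen_atoms (G : Gap P b c K K') {H : Set R} (h0 : P.Rs K ⊆ H)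
    (h1 : ∀ ρ, P.Atom K ρ → ρ ∈ H) (h2 : ∀ σ ∈ H, ∀ τ ∈ H, σ + τ ∈ H) : ∀ (n : ℕ) (τ : R),
    Nat.card {ρ' | P.Atom K ρ' ∧ ¬ P.InW K ρ' τ} ≤ n → τ ∈ H := by
  intro n
  induction n with
  | zero =>
    intro τ hc
    apply h0
    by_contra hτ
    obtain ⟨ρ, k1, k2⟩ := exists_atom G _ τ le_rfl hτ
    have k3 : ¬ P.InW K ρ τ := fun h => inW_rel G k2 h k1
    have : 0 < Nat.card {ρ' | P.Atom K ρ' ∧ ¬ P.InW K ρ' τ} :=
      Nat.card_pos_iff.2 ⟨⟨⟨ρ, k2, k3⟩⟩, inferInstance⟩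
    omega
  | succ n ih =>
    intro τ hc
    by_cases hτ : τ ∈ P.Rs K
    · exact h0 hτ
    obtain ⟨ρ', k1, k2⟩ := exists_atom G _ τ le_rfl hτ
    have k3 : ¬ P.InW K ρ' τ := fun h => inW_rel G k2 h k1
    have k5 : P.InW K ρ' (τ + ρ') := inW_one G k2 k3
    have k6 : τ + ρ' ∈ H := by
      apply ih
      have hss : {ρ'' | P.Atom K ρ'' ∧ ¬ P.InW K ρ'' (τ + ρ')} ⊂
          {ρ'' | P.Atom K ρ'' ∧ ¬ P.InW K ρ'' τ} := by
        refine ⟨?_, fun hh => (hh (show ρ' ∈ _ from ⟨k2, k3⟩)).2 k5⟩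
        rintro ρ'' ⟨m1, m2⟩
        refine ⟨m1, fun m3 => m2 ?_⟩
        by_cases k4 : ρ' + ρ'' ∈ P.Rs K
        · exact inW_congr (by rwa [add_comm]) k5
        · exact add_law G k2 m1 k4 m3
      have := Set.ncard_lt_ncard hss (Set.toFinite _)
      have e1 : Nat.card {ρ'' | P.Atom K ρ'' ∧ ¬ P.InW K ρ'' (τ + ρ')} <
          Nat.card {ρ'' | P.Atom K ρ'' ∧ ¬ P.InW K ρ'' τ} := this
      omega
    have := h2 _ k6 _ (h1 ρ' k2)
    rwa [aa] at this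

/-- with a gap, a nondegenerate linked pair has two elements of rank one with nonzero product -/
theorem rank_one (G : Gap P b c K K') (hN : ∀ x, (∀ ρ, P.f ρ x = 0) → x = 0)
    (hbig : K < finrank (ZMod 2) W) :
    ∃ x y ρ, P.f ρ x (P.ι y) ≠ 0 ∧ (∀ τ, P.f τ x = 0 ∨ P.f τ x = P.f ρ x) ∧
      (∀ τ, P.f τ y = 0 ∨ P.f τ y = P.f ρ y) := by
  obtain ⟨σ0, hσ0⟩ : ∃ σ, σ ∉ P.Rs K := by
    by_contra hc
    push Not at hc
    have h1 : P.D K = ⊥ := by
      rw [eq_bot_iff]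
      intro x hx
      exact hN x (fun ρ => f_Rs (hc ρ) hx)
    have h2 := D_codim G
    rw [h1] at h2
    have : fr (⊥ : Submodule (ZMod 2) W) = 0 := finrank_bot _ _
    omega
  obtain ⟨ρ, -, hρ⟩ := exists_atom G _ σ0 le_rfl hσ0
  have h0 : P.InW K ρ 0 := by
    by_contra h
    apply hρ.1
    apply Rs_of_kill G
    intro x hx
    exact not_inW h hx (by rw [map_zero]; rfl)
  obtain ⟨σ, hσ1, hσ⟩ := exists_special G hρ _ 0 h0 le_rfl
  have key : ∀ x ∈ P.rd K {σ}, ∀ τ, P.f τ x = 0 ∨ P.f τ x = P.f ρ x := by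
    intro x hx' τ
    obtain ⟨hx, hx0⟩ := mem_rd.1 hx'
    have hx1 := hx0 σ rfl
    refine gen_atoms G (H := {τ | P.f τ x = 0 ∨ P.f τ x = P.f ρ x}) ?_ ?_ ?_ _ τ le_rfl
    · intro τ hτ
      exact Or.inl (f_Rs hτ hx)
    · intro ρ' hρ'
      by_cases h : ρ + ρ' ∈ P.Rs K
      · right
        have := f_Rs h hx
        rw [fadd] at this
        exact (eq_of_add_zero this).symm
      · left
        exact not_inW (hσ ρ' hρ' h) hx hx1
    · rintro τ hτ τ' hτ'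
      show P.f (τ + τ') x = 0 ∨ P.f (τ + τ') x = P.f ρ x
      rw [fadd]
      rcases hτ with h | h <;> rcases hτ' with h' | h' <;> rw [h, h']
      · left
        rw [add_zero]
      · right
        rw [zero_add]
      · right
        rw [add_zero]
      · left
        rw [ZModModule.add_self]
  by_contra hc
  have hcomm : ∀ x ∈ P.rd K {σ}, ∀ y ∈ P.rd K {σ}, P.f ρ x (P.ι y) = 0 := by
    intro x hx y hy
    by_contra h
    exact hc ⟨x, y, ρ, h, key x hx, key y hy⟩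
  have b1 := inW_big G hρ hσ1
  have hE := P.fr_img K ρ ∅
  rw [Set.empty_union, rd_empty] at hE
  have hlt := lt_of_notMem G hρ.1
  have h1 := P.fr_img K ρ {σ}
  have h2 := fr_sup_inf (P.rd K {ρ}) (P.rd K {σ})
  have h3 : P.rd K {ρ} ⊓ P.rd K {σ} = P.rd K ({σ} ∪ {ρ}) := by
    rw [rd_union, inf_comm]
  rw [h3] at h2
  have h4 := P.fr_an (P.rd K {ρ} ⊔ P.rd K {σ})
  have h5 : (P.rd K {σ}).map (P.f ρ) ≤ P.an (P.rd K {ρ} ⊔ P.rd K {σ}) := by
    rw [an_sup]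
    apply le_inf
    · exact P.map_le_an ρ _ _ (fun z hz => (mem_rd.1 hz).2 ρ rfl)
    · rintro _ ⟨x, hx, rfl⟩
      rw [an, Submodule.mem_dualAnnihilator]
      rintro _ ⟨z, hz, rfl⟩
      exact hcomm x hx z hz
  have h6 := fr_mono h5
  have hV := V_codim G
  have := G.h2
  omega

end

/-- the sequence of thresholds -/
def Ks (q c : ℕ) : ℕ → ℕ
  | 0 => q
  | n + 1 => q * Ks q c n + 5 * Ks q c n + 5 * c + q + 1

theorem Ks_mono (q c : ℕ) : Monotone (Ks q c) := by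
  apply monotone_nat_of_le_succ
  intro n
  show Ks q c n ≤ q * Ks q c n + 5 * Ks q c n + 5 * c + q + 1
  nlinarith [Nat.zero_le (q * Ks q c n)]

theorem exists_gap {V W R : Type} [AddCommGroup V] [Module (ZMod 2) V] [AddCommGroup W]
    [Module (ZMod 2) W] [AddCommGroup R] [Module (ZMod 2) R] [Finite V] [Finite W] [Finite R]
    (P : LP V W R) (q c : ℕ) (hq : Nat.card R ≤ q)
    (hV : finrank (ZMod 2) V ≤ finrank (ZMod 2) W + c) :
    ∃ i ≤ (2 ^ q) ^ 2, P.Gap q c (Ks q c i) (Ks q c (i + 1)) := by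
  by_contra hc
  push Not at hc
  have key : ∀ i : Fin ((2 ^ q) ^ 2 + 1), ∃ st : Set R × Set R, 
      fr (P.rad st.1) ≤ fr (P.rad st.2) + Ks q c (i + 1) ∧
      ¬ fr (P.rad st.1) ≤ fr (P.rad st.2) + Ks q c i := by
    intro i
    by_contra hi
    push Not at hi
    apply hc i (by have := i.2; omega)
    have hmon : Ks q c 0 ≤ Ks q c i := Ks_mono q c (Nat.zero_le _)
    refine ⟨hV, hq.trans (Nat.lt_two_pow_self).le, hmon, ?_, ?_, ?_⟩
    · show Nat.card R * Ks q c i ≤ q * Ks q c i + 5 * Ks q c i + 5 * c + q + 1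
      have := Nat.mul_le_mul_right (Ks q c i) hq
      omega
    · show 5 * Ks q c i + 5 * c + q + 1 ≤ q * Ks q c i + 5 * Ks q c i + 5 * c + q + 1
      have := Nat.zero_le (q * Ks q c i)
      omega
    · intro s t _ h
      exact hi (s, t) h
  choose g hg1 hg2 using key
  have hinj : Function.Injective g := by
    intro i j hij
    by_contra hne
    rcases lt_or_gt_of_ne hne with h | h
    · apply hg2 j
      rw [← hij]
      refine (hg1 i).trans (Nat.add_le_add_left (Ks_mono q c ?_) _)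
      exact h
    · apply hg2 i
      rw [hij]
      refine (hg1 j).trans (Nat.add_le_add_left (Ks_mono q c ?_) _)
      exact h
  have h1 := Nat.card_le_card_of_injective g hinj
  have := Fintype.ofFinite R
  have h2 : Nat.card (Set R × Set R) ≤ (2 ^ q) ^ 2 := by
    rw [Nat.card_prod, Nat.card_eq_fintype_card, Fintype.card_set, ← Nat.card_eq_fintype_card,
      ← pow_two]
    exact Nat.pow_le_pow_left (Nat.pow_le_pow_right (by norm_num) hq) 2
  rw [Nat.card_eq_fintype_card, Fintype.card_fin] at h1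
  omega

/-- **the core theorem** -/
theorem core (q c : ℕ) (V W R : Type) [AddCommGroup V] [Module (ZMod 2) V]
    [AddCommGroup W] [Module (ZMod 2) W] [AddCommGroup R] [Module (ZMod 2) R] [Finite V]
    [Finite W] [Finite R] (P : LP V W R) (hq : Nat.card R ≤ q)
    (hV : finrank (ZMod 2) V ≤ finrank (ZMod 2) W + c) (hN : ∀ x, (∀ ρ, P.f ρ x = 0) → x = 0)
    (hbig : Ks q c ((2 ^ q) ^ 2) + 1 ≤ finrank (ZMod 2) W) :
    ∃ x y ρ, P.f ρ x (P.ι y) ≠ 0 ∧ (∀ τ, P.f τ x = 0 ∨ P.f τ x = P.f ρ x) ∧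
      (∀ τ, P.f τ y = 0 ∨ P.f τ y = P.f ρ y) := by
  obtain ⟨i, hi, G⟩ := exists_gap P q c hq hV
  apply rank_one G hN
  have := Ks_mono q c hi
  omega

theorem Ks_bound (m n : ℕ) : Ks m (m * m) n + m * m + 1 ≤ (m + 6) ^ (n + 2) := by
  induction n with
  | zero =>
    show m + m * m + 1 ≤ (m + 6) ^ (0 + 2)
    have e : (m + 6) ^ (0 + 2) = m * m + 12 * m + 36 := by ring
    rw [e]
    omega
  | succ n ih =>
    show m * Ks m (m * m) n + 5 * Ks m (m * m) n + 5 * (m * m) + m + 1 + m * m + 1 ≤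
      (m + 6) ^ (n + 1 + 2)
    have e : (m + 6) ^ (n + 1 + 2) = (m + 6) ^ (n + 2) * (m + 6) := by
      rw [← pow_succ]
    rw [e]
    obtain ⟨u, hu⟩ : ∃ u, u = (m + 6) ^ (n + 2) := ⟨_, rfl⟩
    rw [← hu] at ih ⊢
    obtain ⟨k, hk⟩ : ∃ k, k = Ks m (m * m) n := ⟨_, rfl⟩
    rw [← hk] at ih ⊢
    nlinarith [Nat.mul_le_mul_right (m + 5) ih, Nat.zero_le (m * m * m), Nat.zero_le k]

/-- the explicit bound -/
def NN (m : ℕ) : ℕ := 2 ^ ((m + 6) ^ (4 ^ m + 2))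

end LP

end Pool.Agent.H2FIN
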